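import Pool.Agent.Lib.Pb99418.Upper

/-!
# Basic objects for the upper bound of the diameters of the level quotients

`P` is the group of all permutations of the set of finite binary words, `pr f g` is the
permutation `0w ↦ 0 f(w)`, `1w ↦ 1 g(w)`, `ev` evaluates words in the generators,
`lift N = {pr f g : f, g ∈ N}`, `lv i N = lift^i N` and `K` is the normal closure in `G` of
`tt = (ab)^2`.
-/

namespace Pool.Agent.Lib.Pb99418U

open Pool.Agent.Lib.Pb99418 Gen

/-- Permutations of the set of finite binary words. -/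
abbrev P : Type := Equiv.Perm (List Bool)

/-- The generator `a`. -/
abbrev gA : P := gen a
/-- The generator `b`. -/
abbrev gB : P := gen b
/-- The generator `c`. -/
abbrev gC : P := gen c
/-- The generator `d`. -/
abbrev gD : P := gen d

/-! ### Evaluation of words -/

/-- The permutation given by a word in the generators. -/
def ev (w : List Gen) : P := (w.map gen).prod

@[simp] theorem ev_nil : ev [] = 1 := rfl

@[simp] theorem ev_cons (g : Gen) (w : List Gen) : ev (g :: w) = gen g * ev w := by
  simp [ev]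

@[simp] theorem ev_append (u w : List Gen) : ev (u ++ w) = ev u * ev w := by
  simp [ev]

theorem gen_mul_self (g : Gen) : gen g * gen g = 1 := by
  ext w : 1
  exact act_act g w

theorem gen_inv (g : Gen) : (gen g)⁻¹ = gen g := inv_eq_of_mul_eq_one_left (gen_mul_self g)

theorem gen_mem (g : Gen) : gen g ∈ G := Subgroup.subset_closure ⟨g, rfl⟩

theorem ev_mem (w : List Gen) : ev w ∈ G := by
  induction w with
  | nil => exact G.one_mem
  | cons g w ih => rw [ev_cons]; exact G.mul_mem (gen_mem g) ih

theorem ev_reverse (w : List Gen) : ev w.reverse = (ev w)⁻¹ := by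
  induction w with
  | nil => simp
  | cons g w ih => simp [ih, gen_inv]

theorem ev_apply (w : List Gen) (v : List Bool) : ev w v = run w v := by
  induction w with
  | nil => rfl
  | cons g w ih => rw [ev_cons, Equiv.Perm.mul_apply, ih]; rfl

theorem exists_ev {g : P} (hg : g ∈ G) : ∃ w : List Gen, ev w = g := by
  obtain ⟨w, hw⟩ := exists_word ⟨g, hg⟩
  exact ⟨w, by ext v : 1; rw [ev_apply]; exact (hw v).symm⟩

/-! ### Pairs -/

/-- `0w ↦ 0 f(w)`, `1w ↦ 1 g(w)`. -/
def prFun (f g : List Bool → List Bool) : List Bool → List Bool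
  | [] => []
  | false :: w => false :: f w
  | true :: w => true :: g w

/-- The permutation `0w ↦ 0 f(w)`, `1w ↦ 1 g(w)`. -/
def pr (f g : P) : P where
  toFun := prFun f g
  invFun := prFun f.symm g.symm
  left_inv := by
    intro w
    rcases w with _ | ⟨x, w⟩
    · rfl
    · cases x <;> simp [prFun]
  right_inv := by
    intro w
    rcases w with _ | ⟨x, w⟩
    · rfl
    · cases x <;> simp [prFun]

@[simp] theorem pr_nil (f g : P) : pr f g [] = [] := rfl
@[simp] theorem pr_false (f g : P) (w : List Bool) : pr f g (false :: w) = false :: f w := rfl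
@[simp] theorem pr_true (f g : P) (w : List Bool) : pr f g (true :: w) = true :: g w := rfl

@[simp] theorem pr_mul (f g f' g' : P) : pr f g * pr f' g' = pr (f * f') (g * g') := by
  ext w : 1
  rcases w with _ | ⟨x, w⟩
  · rfl
  · cases x <;> rfl

@[simp] theorem pr_one : pr 1 1 = 1 := by
  ext w : 1
  rcases w with _ | ⟨x, w⟩
  · rfl
  · cases x <;> rfl

@[simp] theorem pr_inv (f g : P) : (pr f g)⁻¹ = pr f⁻¹ g⁻¹ := by
  rw [inv_eq_iff_mul_eq_one, pr_mul]
  simp

theorem pr_pow (f g : P) (n : ℕ) : (pr f g) ^ n = pr (f ^ n) (g ^ n) := by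
  induction n with
  | zero => simp
  | succ n ih => rw [pow_succ, ih, pr_mul, ← pow_succ, ← pow_succ]

theorem pr_inj {f g f' g' : P} : pr f g = pr f' g' ↔ f = f' ∧ g = g' := by
  constructor
  · intro h
    constructor
    · ext w : 1
      have := congrArg (fun p : P => p (false :: w)) h
      simpa using this
    · ext w : 1
      have := congrArg (fun p : P => p (true :: w)) h
      simpa using this
  · rintro ⟨rfl, rfl⟩
    rfl

theorem gA_apply (x : Bool) (w : List Bool) : gA (x :: w) = (!x) :: w := by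
  show act a (x :: w) = _
  simp [act]

theorem gA_pr (f g : P) : gA * pr f g = pr g f * gA := by
  ext w : 1
  rcases w with _ | ⟨x, w⟩
  · rfl
  · cases x <;> simp [Equiv.Perm.mul_apply, gA_apply]

theorem gA_pr_gA (f g : P) : gA * pr f g * gA = pr g f := by
  rw [gA_pr, mul_assoc, gen_mul_self, mul_one]

theorem gB_eq : gB = pr gA gC := by
  ext w : 1
  rcases w with _ | ⟨x, w⟩
  · rfl
  · cases x <;> rfl

theorem gC_eq : gC = pr gA gD := by
  ext w : 1
  rcases w with _ | ⟨x, w⟩
  · rfl
  · cases x <;> rfl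

theorem gD_eq : gD = pr 1 gB := by
  ext w : 1
  rcases w with _ | ⟨x, w⟩
  · rfl
  · cases x <;> rfl

/-! Relations among the generators. -/

theorem bcd (w : List Bool) : act b (act c w) = act d w ∧ act c (act b w) = act d w ∧
    act c (act d w) = act b w ∧ act d (act c w) = act b w ∧
    act b (act d w) = act c w ∧ act d (act b w) = act c w := by
  induction w with
  | nil => simp [act_nil]
  | cons x w ih =>
    obtain ⟨h1, h2, h3, h4, h5, h6⟩ := ih
    cases x
    · simp [act, act_act]
    · simp [act, h1, h2, h3, h4, h5, h6]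

theorem gB_gC : gB * gC = gD := by ext w : 1; exact (bcd w).1
theorem gC_gB : gC * gB = gD := by ext w : 1; exact (bcd w).2.1
theorem gC_gD : gC * gD = gB := by ext w : 1; exact (bcd w).2.2.1
theorem gD_gC : gD * gC = gB := by ext w : 1; exact (bcd w).2.2.2.1
theorem gB_gD : gB * gD = gC := by ext w : 1; exact (bcd w).2.2.2.2.1
theorem gD_gB : gD * gB = gC := by ext w : 1; exact (bcd w).2.2.2.2.2

/-- `(ad)^4 = 1`. -/
theorem ad4 : (gA * gD) ^ 4 = 1 := by
  have h : (gA * gD) ^ 2 = pr gB gB := by
    rw [pow_two]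
    calc gA * gD * (gA * gD) = (gA * gD * gA) * gD := by group
      _ = pr gB gB := by
        rw [gD_eq, gA_pr_gA, pr_mul]; simp
  have : (gA * gD) ^ 4 = ((gA * gD) ^ 2) ^ 2 := by rw [← pow_mul]
  rw [this, h, pow_two, pr_mul, gen_mul_self, pr_one]

/-! ### Commutators -/

/-- The commutator `g h g⁻¹ h⁻¹`. -/
def cm (g h : P) : P := g * h * g⁻¹ * h⁻¹

theorem cm_pr (f g f' g' : P) : cm (pr f g) (pr f' g') = pr (cm f f') (cm g g') := by
  simp [cm]

/-! ### `lift` and the levels -/

/-- The group of all `pr f g` with `f, g ∈ N`. -/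
def lift (N : Subgroup P) : Subgroup P where
  carrier := {x | ∃ f ∈ N, ∃ g ∈ N, x = pr f g}
  one_mem' := ⟨1, N.one_mem, 1, N.one_mem, by simp⟩
  mul_mem' := by
    rintro x y ⟨f, hf, g, hg, rfl⟩ ⟨f', hf', g', hg', rfl⟩
    exact ⟨_, N.mul_mem hf hf', _, N.mul_mem hg hg', pr_mul _ _ _ _⟩
  inv_mem' := by
    rintro x ⟨f, hf, g, hg, rfl⟩
    exact ⟨_, N.inv_mem hf, _, N.inv_mem hg, pr_inv _ _⟩

theorem mem_lift {N : Subgroup P} {x : P} : x ∈ lift N ↔ ∃ f ∈ N, ∃ g ∈ N, x = pr f g := Iff.rfl

@[simp] theorem pr_mem_lift {N : Subgroup P} {f g : P} : pr f g ∈ lift N ↔ f ∈ N ∧ g ∈ N := by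
  constructor
  · rintro ⟨f', hf, g', hg, h⟩
    obtain ⟨rfl, rfl⟩ := pr_inj.1 h
    exact ⟨hf, hg⟩
  · rintro ⟨hf, hg⟩
    exact ⟨f, hf, g, hg, rfl⟩

theorem lift_mono {N M : Subgroup P} (h : N ≤ M) : lift N ≤ lift M := by
  rintro x ⟨f, hf, g, hg, rfl⟩
  exact ⟨f, h hf, g, h hg, rfl⟩

/-- `lv i N`: all sections at level `i` are in `N` and level `i` is fixed. -/
def lv : ℕ → Subgroup P → Subgroup P
  | 0, N => N
  | i + 1, N => lift (lv i N)

@[simp] theorem lv_zero (N : Subgroup P) : lv 0 N = N := rfl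
theorem lv_succ (i : ℕ) (N : Subgroup P) : lv (i + 1) N = lift (lv i N) := rfl

theorem lv_succ' (i : ℕ) (N : Subgroup P) : lv (i + 1) N = lv i (lift N) := by
  induction i with
  | zero => rfl
  | succ i ih => rw [lv_succ, ih, ← lv_succ]

theorem lv_add (i j : ℕ) (N : Subgroup P) : lv (i + j) N = lv i (lv j N) := by
  induction i with
  | zero => simp
  | succ i ih => rw [Nat.succ_add, lv_succ, ih, lv_succ]

theorem lv_mono (i : ℕ) {N M : Subgroup P} (h : N ≤ M) : lv i N ≤ lv i M := by
  induction i with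
  | zero => exact h
  | succ i ih => exact lift_mono ih

/-! ### The subgroup `K` -/

/-- `tt = (ab)^2`. -/
def tt : P := gA * gB * gA * gB

/-- The normal closure of `(ab)^2` in `G`. -/
def K : Subgroup P := Subgroup.closure {x | ∃ g ∈ G, x = g * tt * g⁻¹}

/-! ### The map `Ph`, a substitution realising it, and a covering predicate -/

/-- `Ph g = (g, a g a)`. -/
def Ph (g : P) : P := pr g (gA * g * gA)

/-- Every element of `G` is congruent modulo `lv i K` to a word of length at most `L`. -/
def Cov (i : ℕ) (L : ℝ) : Prop :=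
  ∀ g ∈ G, ∃ w : List Gen, (w.length : ℝ) ≤ L ∧ g * (ev w)⁻¹ ∈ lv i K

/-! ### Stages -/

/-- `N' ≤ N ≤ K` are subgroups such that `N / N'` has order at most two, is generated by the image
of `s` and is central in `G / N'`. -/
structure Stage (N N' : Subgroup P) (s : P) : Prop where
  le : N' ≤ N
  leK : N ≤ K
  mem : s ∈ N
  comm : ∀ g ∈ G, ∀ n ∈ N, g * n * g⁻¹ * n⁻¹ ∈ N'
  idx : ∀ n ∈ N, n ∈ N' ∨ n * s⁻¹ ∈ N'

/-- The group generated by the `pr p q` with `p, q ∈ N` and `p q⁻¹ ∈ N'`. -/
def Dg (N N' : Subgroup P) : Subgroup P :=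
  Subgroup.closure {x | ∃ p ∈ N, ∃ q ∈ N, p * q⁻¹ ∈ N' ∧ x = pr p q}

/-! ### Nice words -/

/-- First homomorphism into the dihedral group `⟨a, d⟩`. -/
def f1 : Gen → P
  | a => gD
  | b => 1
  | c => gA
  | d => gA

/-- Second homomorphism into the dihedral group `⟨a, d⟩`. -/
def f2 : Gen → P
  | a => gD * gA * gD
  | b => gA
  | c => 1
  | d => gA

/-- Words all of whose letters occur an even number of times and which are killed by `f1`
and `f2`. -/
structure Nice (w : List Gen) : Prop where
  ea : Even (w.count a)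
  eb : Even (w.count b)
  ec : Even (w.count c)
  ed : Even (w.count d)
  h1 : (w.map f1).prod = 1
  h2 : (w.map f2).prod = 1

/-- The substitution `a ↦ aca`, `b ↦ d`, `c ↦ b`, `d ↦ c` on letters. -/
def psL : Gen → List Gen
  | a => [a, c, a]
  | b => [d]
  | c => [b]
  | d => [c]

/-- The substitution `a ↦ aca`, `b ↦ d`, `c ↦ b`, `d ↦ c`. -/
def psi (w : List Gen) : List Gen := w.flatMap psL

/-- `a ψ(w) a ψ(w)`. -/
def dbl (w : List Gen) : List Gen := (a :: psi w) ++ (a :: psi w)

/-- A bound for the length of a word which `psi` multiplies by at most `9/4`. -/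
def V (w : List Gen) : ℝ := 4 * w.count a + w.count b + w.count c + w.count d

/-- The weighted number of letters which `Ph` multiplies by `x`. -/
def Wx (x : ℝ) (w : List Gen) : ℝ := x ^ 2 * w.count b + 2 * x * w.count c + 4 * w.count d

/-- The chains of stages: `Ch m N N'` if there is a chain of `m` stages from `N` to `N'`
whose elements are given by nice words. -/
inductive Ch : ℕ → Subgroup P → Subgroup P → Prop
  | nil (N : Subgroup P) : Ch 0 N N
  | cons {m : ℕ} {N N' N'' : Subgroup P} (w : List Gen) (hs : Stage N N' (ev w)) (hw : Nice w)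
      (h : Ch m N' N'') : Ch (m + 1) N N''

end Pool.Agent.Lib.Pb99418U
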