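import Pool.Agent.Lib.Pb99418U.KFacts

/-!
# Many elements in `G_n`

`many`: for every `n` there are `2^(2^n)` elements of `K` with pairwise different actions on the
words of length `n + 2`.  Induction on `n`.  `n = 0`: `1` and `tt`; `tt = (ca, ac)` maps the word
`00` to `01`.  Step: from `F : Fin (2^(2^n)) → P` take the family `(i, j) ↦ pr (F i) (F j)`
(in `K` by `lift_K_le`), indexed by `Fin (2^(2^n)) × Fin (2^(2^n)) ≃ Fin (2^(2^(n+1)))`; if
`pr (F i) (F j)` and `pr (F i') (F j')` agree on the words of length `n + 3`, then `F i, F i'` agree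
on the words `w` of length `n + 2` (look at `false :: w`), so `i = i'`, and `j = j'`.

`card_Gn_ge`: the map `i ↦ (F i : Gn (n + 2))` is injective by `mk_eq_iff`.
-/

namespace Pool.Agent.Lib.Pb99418U

open Pool.Agent.Lib.Pb99418 Gen

namespace CardLowAux

theorem tt_ff : tt [false, false] = [false, true] := by
  rw [tt_eq, pr_false, Equiv.Perm.mul_apply, gA_apply, gC_eq]
  rfl

theorem card_eq (n : ℕ) : 2 ^ (2 ^ (n + 1)) = 2 ^ (2 ^ n) * 2 ^ (2 ^ n) := by
  rw [← pow_add, pow_succ]
  congr 1
  ring

end CardLowAux

open CardLowAux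

theorem many (n : ℕ) : ∃ F : Fin (2 ^ (2 ^ n)) → P, (∀ i, F i ∈ K) ∧
    ∀ i j, (∀ w : List Bool, w.length = n + 2 → F i w = F j w) → i = j := by
  induction n with
  | zero =>
    have hne : ¬ (1 : P) [false, false] = tt [false, false] := by
      rw [tt_ff]
      simp
    refine ⟨fun i => if i.1 = 0 then 1 else tt, ?_, ?_⟩
    · intro i
      show (if i.1 = 0 then (1 : P) else tt) ∈ K
      split_ifs
      · exact K.one_mem
      · exact tt_mem_K
    · intro i j h
      have h1 : (if i.1 = 0 then (1 : P) else tt) [false, false] =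
        (if j.1 = 0 then (1 : P) else tt) [false, false] := h [false, false] rfl
      have hi : i.1 < 2 := i.2
      have hj : j.1 < 2 := j.2
      apply Fin.ext
      by_cases hi0 : i.1 = 0
      · by_cases hj0 : j.1 = 0
        · omega
        · rw [if_pos hi0, if_neg hj0] at h1
          exact absurd h1 hne
      · by_cases hj0 : j.1 = 0
        · rw [if_neg hi0, if_pos hj0] at h1
          exact absurd h1.symm hne
        · omega
  | succ n ih =>
    obtain ⟨F, hF, hinj⟩ := ih
    let e : Fin (2 ^ (2 ^ (n + 1))) ≃ Fin (2 ^ (2 ^ n)) × Fin (2 ^ (2 ^ n)) :=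
      (finCongr (card_eq n)).trans finProdFinEquiv.symm
    refine ⟨fun i => pr (F (e i).1) (F (e i).2), ?_, ?_⟩
    · intro i
      exact lift_K_le (pr_mem_lift.2 ⟨hF _, hF _⟩)
    · intro i j h
      apply e.injective
      apply Prod.ext
      · apply hinj
        intro w hw
        have h1 := h (false :: w) (by rw [List.length_cons, hw])
        simp only [pr_false] at h1
        exact (List.cons.inj h1).2
      · apply hinj
        intro w hw
        have h1 := h (true :: w) (by rw [List.length_cons, hw])
        simp only [pr_true] at h1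
        exact (List.cons.inj h1).2

theorem card_Gn_ge (n : ℕ) : 2 ^ (2 ^ n) ≤ Nat.card (Gn (n + 2)) := by
  obtain ⟨F, hF, hinj⟩ := many n
  have h1 : Function.Injective fun i => ((⟨F i, K_le_G (hF i)⟩ : G) : Gn (n + 2)) := by
    intro i j hij
    exact hinj i j ((mk_eq_iff (n + 2) _ _).1 hij)
  have h2 := Nat.card_le_card_of_injective _ h1
  rwa [Nat.card_fin] at h2

end Pool.Agent.Lib.Pb99418U
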