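import Pool.Agent.Lib.Pb99418U.Basic

/-!
# Nice words

* `ev_psi`: for every word `w`, `ev (psi w) = pr (w.map f1).prod (ev w)`: by induction, for a
  letter: `aca = pr d a` , `d = pr 1 b`, `b = pr a c`, `c = pr a d`.
* `nice_psi`: the counts of `psi w` are: `a`: twice that of `a`; `b`: that of `c`; `c`: those of
  `a` and of `d`; `d`: that of `b`.  `((psi w).map f1).prod = (w.map f2).prod` (letter by letter:
  `aca ↦ d a d`, `d ↦ a`, `b ↦ 1`, `c ↦ a`), and `((psi w).map f2).prod` is the product of
  `a ↦ (dad)(1)(dad) = 1`, `b ↦ f2 d = a`, `c ↦ f2 b = a`, `d ↦ f2 c = 1`, that is, a power of `a`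
  whose exponent is the number of `b`s and `c`s in `w`, an even number.
* `nice_dbl`: the two homomorphisms on `a ψ(w) a ψ(w)` give `d · 1 · d · 1 = 1` and
  `(dad) · 1 · (dad) · 1 = 1`; the counts are even.
* `ev_dbl`: `a (1, s) a (1, s) = (s, s)`.
* `nice_t`, `nice_t2`: direct computation (`(da)^4 = 1` from `ad4`).
* `V_psi`: `V (psi w) = 9 #a + #b + #c + #d ≤ (9/4) V w`;  `V_dbl`.
* `length_le_V`.
-/

namespace Pool.Agent.Lib.Pb99418U

open Pool.Agent.Lib.Pb99418 Gen

namespace NiceWAux

theorem psi_cons (x : Gen) (w : List Gen) : psi (x :: w) = psL x ++ psi w := by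
  simp [psi]

theorem cnt_psi (w : List Gen) : (psi w).count a = 2 * w.count a ∧ (psi w).count b = w.count c ∧
    (psi w).count c = w.count a + w.count d ∧ (psi w).count d = w.count b := by
  induction w with
  | nil => simp [psi]
  | cons x w ih =>
    obtain ⟨h1, h2, h3, h4⟩ := ih
    rw [psi_cons]
    simp only [List.count_append, h1, h2, h3, h4, List.count_cons]
    cases x <;> simp [psL] <;> omega

theorem gA_dad : gD * gA * gD * (gD * gA * gD) = 1 := by
  have h : gD * gA * gD * (gD * gA * gD) = gD * (gA * ((gD * gD) * gA)) * gD := by group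
  rw [h, gen_mul_self, one_mul, gen_mul_self, mul_one, gen_mul_self]

theorem f1_psi (w : List Gen) : ((psi w).map f1).prod = (w.map f2).prod := by
  induction w with
  | nil => simp [psi]
  | cons x w ih =>
    rw [psi_cons, List.map_append, List.prod_append, ih]
    cases x <;> simp [psL, f1, f2, mul_assoc]

theorem f2_psi (w : List Gen) : ((psi w).map f2).prod = gA ^ (w.count b + w.count c) := by
  induction w with
  | nil => simp [psi]
  | cons x w ih =>
    rw [psi_cons, List.map_append, List.prod_append, ih]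
    have hA := gA_dad
    cases x
    · simp only [psL, f2, List.map_cons, List.map_nil, List.prod_cons, List.prod_nil, mul_one, one_mul, hA]
      simp
    · simp only [psL, f2, List.map_cons, List.map_nil, List.prod_cons, List.prod_nil, mul_one, List.count_cons]
      rw [← pow_succ']
      congr 1
      simp
      omega
    · simp only [psL, f2, List.map_cons, List.map_nil, List.prod_cons, List.prod_nil, mul_one, List.count_cons]
      rw [← pow_succ']
      congr 1
    · simp only [psL, f2, List.map_cons, List.map_nil, List.prod_cons, List.prod_nil, mul_one, one_mul]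
      simp

theorem da4 : (gD * gA) ^ 4 = 1 := by
  have h : gD * gA = (gA * gD)⁻¹ := by rw [mul_inv_rev, gen_inv, gen_inv]
  rw [h, inv_pow, ad4, inv_one]

theorem dada : gD * gA * gD * (gA * (gD * gA * gD * (gA * 1))) = 1 := by
  have h : gD * gA * gD * (gA * (gD * gA * gD * (gA * 1))) = (gD * gA) ^ 4 := by
    simp only [pow_succ, pow_zero, one_mul, mul_one, mul_assoc]
  rw [h, da4]

end NiceWAux

open NiceWAux

theorem ev_psi (w : List Gen) : ev (psi w) = pr (w.map f1).prod (ev w) := by
  induction w with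
  | nil => simp [psi]
  | cons x w ih =>
    rw [psi_cons, ev_append, ih, List.map_cons, List.prod_cons, ev_cons, ← pr_mul]
    congr 1
    cases x
    · show ev [a, c, a] = pr gD gA
      rw [ev_cons, ev_cons, ev_cons, ev_nil, mul_one, ← mul_assoc]
      show gA * gC * gA = _
      rw [gC_eq, gA_pr_gA]
    · show ev [d] = pr 1 gB
      rw [ev_cons, ev_nil, mul_one]
      exact gD_eq
    · show ev [b] = pr gA gC
      rw [ev_cons, ev_nil, mul_one]
      exact gB_eq
    · show ev [c] = pr gA gD
      rw [ev_cons, ev_nil, mul_one]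
      exact gC_eq

theorem Nice.ev_psi {w : List Gen} (h : Nice w) : ev (psi w) = pr 1 (ev w) := by
  rw [Pool.Agent.Lib.Pb99418U.ev_psi, h.h1]

theorem Nice.psi {w : List Gen} (h : Nice w) : Nice (psi w) := by
  obtain ⟨h1, h2, h3, h4⟩ := cnt_psi w
  refine ⟨?_, ?_, ?_, ?_, ?_, ?_⟩
  · rw [h1]; exact even_two_mul _
  · rw [h2]; exact h.ec
  · rw [h3]; exact h.ea.add h.ed
  · rw [h4]; exact h.eb
  · rw [f1_psi, h.h2]
  · rw [f2_psi]
    obtain ⟨k, hk⟩ := h.eb.add h.ec
    rw [hk, ← two_mul, pow_mul, pow_two, gen_mul_self, one_pow]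

theorem Nice.ev_dbl {w : List Gen} (h : Nice w) : ev (dbl w) = pr (ev w) (ev w) := by
  have h1 : ev (dbl w) = gA * pr 1 (ev w) * gA * pr 1 (ev w) := by
    rw [dbl, ev_append, ev_cons, h.ev_psi]
    group
  rw [h1, gA_pr_gA, pr_mul, one_mul, mul_one]

theorem Nice.dbl {w : List Gen} (h : Nice w) : Nice (dbl w) := by
  have h1 := h.psi
  have hc : ∀ x, Even ((Pool.Agent.Lib.Pb99418U.dbl w).count x) := by
    intro x
    rw [Pool.Agent.Lib.Pb99418U.dbl, List.count_append]
    exact ⟨_, rfl⟩
  refine ⟨hc a, hc b, hc c, hc d, ?_, ?_⟩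
  · rw [Pool.Agent.Lib.Pb99418U.dbl, List.map_append, List.prod_append, List.map_cons, List.prod_cons, h1.h1, mul_one]
    exact gen_mul_self d
  · rw [Pool.Agent.Lib.Pb99418U.dbl, List.map_append, List.prod_append, List.map_cons, List.prod_cons, h1.h2, mul_one]
    exact gA_dad

theorem nice_t : Nice [a, b, a, b] := by
  refine ⟨by decide, by decide, by decide, by decide, ?_, ?_⟩
  · simp only [List.map_cons, List.map_nil, List.prod_cons, List.prod_nil, f1, mul_one, one_mul]
    exact gen_mul_self d
  · simp only [List.map_cons, List.map_nil, List.prod_cons, List.prod_nil, f2]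
    exact dada

theorem nice_t2 : Nice [a, b, a, b, a, b, a, b] := by
  refine ⟨by decide, by decide, by decide, by decide, ?_, ?_⟩
  · simp only [List.map_cons, List.map_nil, List.prod_cons, List.prod_nil, f1, mul_one, one_mul]
    rw [gen_mul_self, mul_one, gen_mul_self]
  · have h : List.map f2 [a, b, a, b, a, b, a, b] = List.map f2 [a, b, a, b] ++ List.map f2 [a, b, a, b] := rfl
    rw [h, List.prod_append, nice_t.h2, one_mul]

theorem ev_t : ev [a, b, a, b] = tt := by
  simp only [ev_cons, ev_nil, tt, mul_assoc, mul_one]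

theorem ev_t2 : ev [a, b, a, b, a, b, a, b] = tt ^ 2 := by
  have h : [a, b, a, b, a, b, a, b] = [a, b, a, b] ++ [a, b, a, b] := rfl
  rw [h, ev_append, ev_t, pow_two]

theorem V_nonneg (w : List Gen) : 0 ≤ V w := by
  unfold V
  positivity

theorem length_le_V (w : List Gen) : (w.length : ℝ) ≤ V w := by
  have h : w.length = w.count a + w.count b + w.count c + w.count d := by
    induction w with
    | nil => simp
    | cons x w ih =>
      simp only [List.length_cons, ih, List.count_cons]
      cases x <;> simp <;> omega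
  unfold V
  rw [h]
  push_cast
  have : (0 : ℝ) ≤ (w.count a : ℝ) := Nat.cast_nonneg _
  linarith

theorem V_psi (w : List Gen) : V (psi w) ≤ 9 / 4 * V w := by
  obtain ⟨h1, h2, h3, h4⟩ := cnt_psi w
  unfold V
  rw [h1, h2, h3, h4]
  push_cast
  have e1 : (0 : ℝ) ≤ (w.count a : ℝ) := Nat.cast_nonneg _
  have e2 : (0 : ℝ) ≤ (w.count b : ℝ) := Nat.cast_nonneg _
  have e3 : (0 : ℝ) ≤ (w.count c : ℝ) := Nat.cast_nonneg _
  have e4 : (0 : ℝ) ≤ (w.count d : ℝ) := Nat.cast_nonneg _
  linarith

theorem V_dbl (w : List Gen) : V (dbl w) = 8 + 2 * V (psi w) := by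
  unfold V
  simp only [dbl, List.count_append, List.count_cons]
  simp
  ring

end Pool.Agent.Lib.Pb99418U
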