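import Pool.Agent.Lib.Pb99418U.KFacts

/-!
# The first two stages

Put `K1 = lift K · ⟨t^2⟩`, `t = tt`.  Then `(K, K1, t)` and `(K1, lift K, t^2)` are stages.
-/

namespace Pool.Agent.Lib.Pb99418U

open Pool.Agent.Lib.Pb99418 Gen

/-- `K1 = lift K · ⟨tt^2⟩`. -/
def K1 : Subgroup P := lift K ⊔ Subgroup.zpowers (tt ^ 2)

namespace StageBaseAux

theorem tG : tt ∈ G := K_le_G tt_mem_K

theorem lc {g n : P} (hg : g ∈ G) (hn : n ∈ lift K) : g * n * g⁻¹ ∈ lift K :=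
  lift_conj (fun _ hg _ hk => K_conj hg hk) g hg n hn

theorem t4 : tt ^ 2 * tt ^ 2 ∈ lift K := by
  rw [← pow_add]
  exact tt_pow4

theorem t4' : (tt ^ 2)⁻¹ * (tt ^ 2)⁻¹ ∈ lift K := by
  have := (lift K).inv_mem t4
  rwa [mul_inv_rev] at this

/-- The union of `lift K` and its coset of `tt ^ 2`. -/
def S : Subgroup P where
  carrier := {x | x ∈ lift K ∨ x * (tt ^ 2)⁻¹ ∈ lift K}
  one_mem' := Or.inl (lift K).one_mem
  mul_mem' := by
    rintro x y (hx | hx) (hy | hy)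
    · exact Or.inl ((lift K).mul_mem hx hy)
    · right
      rw [mul_assoc]
      exact (lift K).mul_mem hx hy
    · right
      have e : x * y * (tt ^ 2)⁻¹ = (x * (tt ^ 2)⁻¹) * (tt ^ 2 * y * (tt ^ 2)⁻¹) := by group
      rw [e]
      exact (lift K).mul_mem hx (lc (G.pow_mem tG 2) hy)
    · left
      have e : x * y = (x * (tt ^ 2)⁻¹) * (tt ^ 2 * (y * (tt ^ 2)⁻¹) * (tt ^ 2)⁻¹) *
          (tt ^ 2 * tt ^ 2) := by group
      rw [e]
      exact (lift K).mul_mem ((lift K).mul_mem hx (lc (G.pow_mem tG 2) hy)) t4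
  inv_mem' := by
    rintro x (hx | hx)
    · exact Or.inl ((lift K).inv_mem hx)
    · right
      have e : x⁻¹ * (tt ^ 2)⁻¹ = ((tt ^ 2)⁻¹ * (x * (tt ^ 2)⁻¹)⁻¹ * (tt ^ 2)⁻¹⁻¹) *
          ((tt ^ 2)⁻¹ * (tt ^ 2)⁻¹) := by group
      rw [e]
      exact (lift K).mul_mem (lc (G.inv_mem (G.pow_mem tG 2)) ((lift K).inv_mem hx)) t4'

theorem mem_of_K1 {x : P} (h : x ∈ K1) : x ∈ lift K ∨ x * (tt ^ 2)⁻¹ ∈ lift K := by
  have h1 : K1 ≤ S := by
    rw [K1]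
    refine sup_le (fun y hy => Or.inl hy) ?_
    rw [Subgroup.zpowers_le]
    right
    rw [mul_inv_cancel]
    exact (lift K).one_mem
  exact h1 h

theorem lK_le : lift K ≤ K1 := le_sup_left

theorem t2_mem : tt ^ 2 ∈ K1 := le_sup_right (α := Subgroup P) (Subgroup.mem_zpowers _)

theorem K1_le : K1 ≤ K := by
  rw [K1]
  refine sup_le lift_K_le ?_
  rw [Subgroup.zpowers_le]
  exact K.pow_mem tt_mem_K 2

theorem sq {g : P} (hg : g ∈ G) : g * tt ^ 2 * g⁻¹ * (tt ^ 2)⁻¹ ∈ lift K := by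
  rcases conj_tt hg with h | h
  · have e : g * tt ^ 2 * g⁻¹ * (tt ^ 2)⁻¹ = (g * tt * g⁻¹ * tt⁻¹) *
        (tt * (g * tt * g⁻¹ * tt⁻¹) * tt⁻¹) := by
      rw [pow_two]
      group
    rw [e]
    exact (lift K).mul_mem h (lc tG h)
  · have e : g * tt ^ 2 * g⁻¹ * (tt ^ 2)⁻¹ = (g * tt * g⁻¹ * tt) *
        (tt⁻¹ * (g * tt * g⁻¹ * tt) * tt⁻¹⁻¹) * ((tt ^ 2)⁻¹ * (tt ^ 2)⁻¹) := by
      rw [pow_two]
      group
    rw [e]
    exact (lift K).mul_mem ((lift K).mul_mem h (lc (G.inv_mem tG) h)) t4'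

theorem K1_conj {g n : P} (hg : g ∈ G) (hn : n ∈ K1) : g * n * g⁻¹ ∈ K1 := by
  rcases mem_of_K1 hn with h | h
  · exact lK_le (lc hg h)
  · have e : g * n * g⁻¹ = (g * (n * (tt ^ 2)⁻¹) * g⁻¹) * (g * tt ^ 2 * g⁻¹ * (tt ^ 2)⁻¹) *
        tt ^ 2 := by group
    rw [e]
    exact K1.mul_mem (K1.mul_mem (lK_le (lc hg h)) (lK_le (sq hg))) t2_mem

theorem C1 {g : P} (hg : g ∈ G) : g * tt * g⁻¹ * tt⁻¹ ∈ K1 := by
  rcases conj_tt hg with h | h
  · exact lK_le h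
  · have e : g * tt * g⁻¹ * tt⁻¹ = (g * tt * g⁻¹ * tt) * (tt ^ 2)⁻¹ := by
      rw [pow_two]
      group
    rw [e]
    exact K1.mul_mem (lK_le h) (K1.inv_mem t2_mem)

theorem Ce {g : P} (hg : g ∈ G) (e : ℕ) : g * tt ^ e * g⁻¹ * (tt ^ e)⁻¹ ∈ K1 := by
  induction e with
  | zero =>
    have : g * tt ^ 0 * g⁻¹ * (tt ^ 0)⁻¹ = 1 := by simp
    rw [this]
    exact K1.one_mem
  | succ e ih =>
    have h : g * tt ^ (e + 1) * g⁻¹ * (tt ^ (e + 1))⁻¹ =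
        ((g * tt ^ e * g⁻¹) * (g * tt * g⁻¹ * tt⁻¹) * (g * tt ^ e * g⁻¹)⁻¹) *
          (g * tt ^ e * g⁻¹ * (tt ^ e)⁻¹) := by
      rw [pow_succ]
      group
    rw [h]
    refine K1.mul_mem (K1_conj ?_ (C1 hg)) ih
    exact G.mul_mem (G.mul_mem hg (G.pow_mem tG e)) (G.inv_mem hg)

end StageBaseAux

open StageBaseAux

theorem stage_zero : Stage K K1 tt where
  le := K1_le
  leK := le_rfl
  mem := tt_mem_K
  comm := by
    intro g hg n hn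
    obtain ⟨e, -, h⟩ := K_dec hn
    have h1 : g * n * g⁻¹ * n⁻¹ = (g * (n * (tt ^ e)⁻¹) * g⁻¹) *
        (g * tt ^ e * g⁻¹ * (tt ^ e)⁻¹) * (n * (tt ^ e)⁻¹)⁻¹ := by group
    rw [h1]
    exact K1.mul_mem (K1.mul_mem (lK_le (lc hg h)) (Ce hg e)) (K1.inv_mem (lK_le h))
  idx := by
    intro n hn
    obtain ⟨e, he, h⟩ := K_dec hn
    have he' : e = 0 ∨ e = 1 ∨ e = 2 ∨ e = 3 := by omega
    rcases he' with rfl | rfl | rfl | rfl
    · left
      have h1 : n * (tt ^ 0)⁻¹ = n := by simp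
      rw [h1] at h
      exact lK_le h
    · right
      rw [pow_one] at h
      exact lK_le h
    · left
      have h1 : n = (n * (tt ^ 2)⁻¹) * tt ^ 2 := by group
      rw [h1]
      exact K1.mul_mem (lK_le h) t2_mem
    · right
      have h1 : n * tt⁻¹ = (n * (tt ^ 3)⁻¹) * tt ^ 2 := by group
      rw [h1]
      exact K1.mul_mem (lK_le h) t2_mem

theorem stage_one' : Stage K1 (lift K) (tt ^ 2) where
  le := lK_le
  leK := K1_le
  mem := t2_mem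
  comm := by
    intro g hg n hn
    rcases mem_of_K1 hn with h | h
    · exact (lift K).mul_mem (lc hg h) ((lift K).inv_mem h)
    · have h1 : g * n * g⁻¹ * n⁻¹ = (g * (n * (tt ^ 2)⁻¹) * g⁻¹) *
          (g * tt ^ 2 * g⁻¹ * (tt ^ 2)⁻¹) * (n * (tt ^ 2)⁻¹)⁻¹ := by group
      rw [h1]
      exact (lift K).mul_mem ((lift K).mul_mem (lc hg h) (sq hg)) ((lift K).inv_mem h)
  idx := fun n hn => mem_of_K1 hn

end Pool.Agent.Lib.Pb99418U
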