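import Pool.Agent.Lib.Pb99418U.StageNew
import Pool.Agent.Lib.Pb99418U.StageBase
import Pool.Agent.Lib.Pb99418U.NiceW

/-!
# The chain from `K` to `lv k K`

* `Ch.trans`: chains can be concatenated.
* `Ch.lift`: a chain of `m` stages from `N` to `N''` gives a chain of `2 m` stages from `lift N` to
  `lift N''`: replace every stage `(N, N', s)` by `(lift N, Dg N N', pr 1 s)` and
  `(Dg N N', lift N', pr s s)` (`Stage.one`, `Stage.two`), with the words `psi w`, `dbl w`.
* `ch_K`: a chain of `2 (2^k - 1)` stages from `K` to `lv k K`: induction on `k`,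
  `2 + 2 · 2 (2^k - 1) = 2 (2^(k+1) - 1)`, the first two stages are those of `StageBase` with the
  words `abab` and `abababab`, then `Ch.lift` of the chain for `k`
  (`lift (lv k K) = lv (k + 1) K`).
-/

namespace Pool.Agent.Lib.Pb99418U

open Pool.Agent.Lib.Pb99418 Gen

theorem Ch.trans {m n : ℕ} {N N' N'' : Subgroup P} (h : Ch m N N') (h' : Ch n N' N'') :
    Ch (m + n) N N'' := by
  induction h with
  | nil N => rwa [Nat.zero_add]
  | cons w hs hw _ ih =>
    rw [Nat.add_right_comm]
    exact Ch.cons w hs hw (ih h')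

theorem Ch.lift {m : ℕ} {N N' : Subgroup P} (h : Ch m N N') :
    Ch (2 * m) (lift N) (lift N') := by
  induction h with
  | nil N => exact Ch.nil _
  | cons w hs hw _ ih =>
    have h1 := hs.one
    have h2 := hs.two
    rw [← hw.ev_psi] at h1
    rw [← hw.ev_dbl] at h2
    exact Ch.cons (psi w) h1 hw.psi (Ch.cons (dbl w) h2 hw.dbl ih)

theorem ch_K (k : ℕ) : Ch (2 * (2 ^ k - 1)) K (lv k K) := by
  induction k with
  | zero => exact Ch.nil _
  | succ k ih =>
    have h0 : Stage K K1 (ev [a, b, a, b]) := by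
      rw [ev_t]
      exact stage_zero
    have h1 : Stage K1 (Pool.Agent.Lib.Pb99418U.lift K) (ev [a, b, a, b, a, b, a, b]) := by
      rw [ev_t2]
      exact stage_one'
    have e : 2 * (2 ^ (k + 1) - 1) = 2 * (2 * (2 ^ k - 1)) + 1 + 1 := by
      have : 1 ≤ 2 ^ k := Nat.one_le_two_pow
      rw [pow_succ]
      omega
    rw [e, lv_succ]
    exact Ch.cons _ h0 nice_t (Ch.cons _ h1 nice_t2 ih.lift)

end Pool.Agent.Lib.Pb99418U
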