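import Pool.Agent.Lib.Pb99418U.StageNew

/-!
# Killing the constant part, at the root

Let `(N, N', s)` be a stage, `h1 = ((1, s), (1, s))`, `h2 false = (1, (1, s))`,
`h2 true = ((1, s), 1)`.  Let `r ∈ lift (Dg N N')`, that is `r = ((p, p'), (q, q'))` with
`p ≡ p'`, `q ≡ q'` modulo `N'`.  Then there are `β0, β1 ∈ {1, t}` such that for all
`B0 ∈ β0 · lift K`, `B1 ∈ β1 · lift K` the element `r · (⁅B0, h1⁆ ⁅B1, h2 f⁆)⁻¹` is in
`lift (lift N')`.

Proof.  `comm_one`: if `B ∈ lift K` then `B = (k, k')` with `k, k' ∈ K ≤ lift G` (`K_le_lift_G`),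
so `k = (u, v)` with `u, v ∈ G` and `⁅k, (1, s)⁆ = (1, ⁅v, s⁆)` with `⁅v, s⁆ ∈ N'` by
`Stage.comm`; hence `⁅B, h⁆ ∈ lift (lift N')` for `h = h1, h2 f`.
`comm_t`: if `B = t (k, k')`, `t = (ca, ac)`, then `B = (c a k, a c k')` and
`⁅c a k, (1, s)⁆ = (a v s v⁻¹ a, s⁻¹)` with `k = (u, v)` (as `k (1, s) k⁻¹ = (1, v s v⁻¹)`,
conjugation by `a` swaps, and `c = (a, d)`), and both coordinates are in `s N'` (or `s⁻¹ N'`, which
is the same: `s^2 ∈ N'`); similarly `⁅a c k', (1, s)⁆ = (d v s v⁻¹ d, s⁻¹)`.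
So modulo `lift (lift N')`: `⁅B, h1⁆ ≡ ((s, s), (s, s))^e`, `⁅B, h2 false⁆ ≡ (1, (s, s))^e`,
`⁅B, h2 true⁆ ≡ ((s, s), 1)^e` for `B ∈ t^e lift K`, `e ∈ {0, 1}`.
Now let `ε = 0` if `p ∈ N'` and `1` otherwise, `η = 0` if `q ∈ N'` and `1` otherwise.  For
`f = false` take `e0 = ε`, `e1 = ε + η` (mod 2); for `f = true` take `e0 = η`, `e1 = ε + η`.
The four coordinates of the quotient are in `N'` (case analysis; use `Stage.quot`, the normality
`Stage.conj'` and that `N / N'` has order at most two).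
-/

namespace Pool.Agent.Lib.Pb99418U

open Pool.Agent.Lib.Pb99418 Gen

/-- The element used for the part of the function constant in the second digit. -/
def h1 (s : P) : P := pr (pr 1 s) (pr 1 s)

/-- The element used for the other part. -/
def h2 (f : Bool) (s : P) : P := if f then pr (pr 1 s) 1 else pr 1 (pr 1 s)

namespace ConstBaseAux

/-- `x` is in the class of `s` if `e` holds and in the class of `1` otherwise. -/
def cl (N N' : Subgroup P) (s : P) (e : Bool) (x : P) : Prop :=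
  x ∈ N ∧ if e then x * s⁻¹ ∈ N' else x ∈ N'

/-- Both coordinates are in the class `e`. -/
def Q (N N' : Subgroup P) (s : P) (e : Bool) (x : P) : Prop :=
  ∃ y z, x = pr y z ∧ cl N N' s e y ∧ cl N N' s e z

variable {N N' : Subgroup P} {s : P}

theorem inG' (h : Stage N N' s) {x : P} (hx : x ∈ N) : x ∈ G := K_le_G (h.leK hx)

theorem s2 (h : Stage N N' s) : s * s ∈ N' := by
  by_cases hs : s ∈ N'
  · exact N'.mul_mem hs hs
  · exact StageNewAux.quot2 h h.mem h.mem hs hs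

theorem cl_ff {x : P} : cl N N' s false x ↔ x ∈ N ∧ x ∈ N' := by simp [cl]

theorem cl_tt {x : P} : cl N N' s true x ↔ x ∈ N ∧ x * s⁻¹ ∈ N' := by simp [cl]

theorem cl_mul (h : Stage N N' s) {e e' : Bool} {x y : P} (hx : cl N N' s e x)
    (hy : cl N N' s e' y) : cl N N' s (xor e e') (x * y) := by
  refine ⟨N.mul_mem hx.1 hy.1, ?_⟩
  have hsG := inG' h h.mem
  cases e <;> cases e'
  · rw [cl_ff] at hx hy
    simpa using N'.mul_mem hx.2 hy.2
  · rw [cl_ff] at hx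
    rw [cl_tt] at hy
    have := N'.mul_mem hx.2 hy.2
    simpa [mul_assoc] using this
  · rw [cl_tt] at hx
    rw [cl_ff] at hy
    have h1 := N'.mul_mem hx.2 (h.conj' hsG hy.2)
    have e1 : x * y * s⁻¹ = x * s⁻¹ * (s * y * s⁻¹) := by group
    simpa [e1] using h1
  · rw [cl_tt] at hx hy
    have h1 := N'.mul_mem (N'.mul_mem hx.2 (h.conj' hsG hy.2)) (s2 h)
    have e1 : x * y = x * s⁻¹ * (s * (y * s⁻¹) * s⁻¹) * (s * s) := by group
    rw [e1]
    simpa using h1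

theorem cl_inv (h : Stage N N' s) {e : Bool} {x : P} (hx : cl N N' s e x) :
    cl N N' s e x⁻¹ := by
  have hsG := inG' h h.mem
  cases e
  · rw [cl_ff] at hx ⊢
    exact ⟨N.inv_mem hx.1, N'.inv_mem hx.2⟩
  · rw [cl_tt] at hx ⊢
    refine ⟨N.inv_mem hx.1, ?_⟩
    have h1 := N'.inv_mem (N'.mul_mem (h.conj' hsG hx.2) (s2 h))
    have e1 : x⁻¹ * s⁻¹ = (s * (x * s⁻¹) * s⁻¹ * (s * s))⁻¹ := by group
    rw [e1]
    exact h1

theorem cl_conj (h : Stage N N' s) {e : Bool} {x g : P} (hg : g ∈ G) (hx : cl N N' s e x) :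
    cl N N' s e (g * x * g⁻¹) := by
  cases e
  · rw [cl_ff] at hx ⊢
    exact ⟨h.conj hg hx.1, h.conj' hg hx.2⟩
  · rw [cl_tt] at hx ⊢
    refine ⟨h.conj hg hx.1, ?_⟩
    have h1 := N'.mul_mem (h.comm g hg x hx.1) hx.2
    have e1 : g * x * g⁻¹ * s⁻¹ = g * x * g⁻¹ * x⁻¹ * (x * s⁻¹) := by group
    rw [e1]
    exact h1

theorem cl_exists (h : Stage N N' s) {x : P} (hx : x ∈ N) : ∃ e, cl N N' s e x := by
  rcases h.idx x hx with h1 | h1
  · exact ⟨false, cl_ff.2 ⟨hx, h1⟩⟩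
  · exact ⟨true, cl_tt.2 ⟨hx, h1⟩⟩

theorem cl_congr (h : Stage N N' s) {e : Bool} {x y : P} (hx : cl N N' s e x) (hy : y ∈ N)
    (hxy : x * y⁻¹ ∈ N') : cl N N' s e y := by
  have h1 : cl N N' s false (x * y⁻¹)⁻¹ :=
    cl_ff.2 ⟨N.inv_mem (N.mul_mem hx.1 (N.inv_mem hy)), N'.inv_mem hxy⟩
  have h2 := cl_mul h h1 hx
  have e1 : (x * y⁻¹)⁻¹ * x = y := by group
  rw [e1, Bool.false_xor] at h2
  exact h2

theorem cl_one : cl N N' s false 1 := cl_ff.2 ⟨N.one_mem, N'.one_mem⟩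

theorem cl_s (h : Stage N N' s) : cl N N' s true s :=
  cl_tt.2 ⟨h.mem, by rw [mul_inv_cancel]; exact N'.one_mem⟩

theorem Q_mul (h : Stage N N' s) {e e' : Bool} {x y : P} (hx : Q N N' s e x)
    (hy : Q N N' s e' y) : Q N N' s (xor e e') (x * y) := by
  obtain ⟨x1, x2, rfl, h1, h2⟩ := hx
  obtain ⟨y1, y2, rfl, h3, h4⟩ := hy
  exact ⟨_, _, pr_mul _ _ _ _, cl_mul h h1 h3, cl_mul h h2 h4⟩

theorem Q_inv (h : Stage N N' s) {e : Bool} {x : P} (hx : Q N N' s e x) : Q N N' s e x⁻¹ := by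
  obtain ⟨x1, x2, rfl, h1, h2⟩ := hx
  exact ⟨_, _, pr_inv _ _, cl_inv h h1, cl_inv h h2⟩

theorem Q_one : Q N N' s false 1 := ⟨1, 1, pr_one.symm, cl_one, cl_one⟩

theorem Q_mem {x : P} (hx : Q N N' s false x) : x ∈ lift N' := by
  obtain ⟨x1, x2, rfl, h1, h2⟩ := hx
  exact pr_mem_lift.2 ⟨(cl_ff.1 h1).2, (cl_ff.1 h2).2⟩

theorem base0 (h : Stage N N' s) {k : P} (hk : k ∈ K) : Q N N' s false (cm k (pr 1 s)) := by
  obtain ⟨u, hu, v, hv, rfl⟩ := K_le_lift_G hk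
  refine ⟨cm u 1, cm v s, cm_pr _ _ _ _, ?_, ?_⟩
  · have e1 : cm u 1 = 1 := by simp [cm]
    rw [e1]
    exact cl_one
  · exact cl_ff.2 ⟨h.le (h.comm v hv s h.mem), h.comm v hv s h.mem⟩

theorem base1 (h : Stage N N' s) {k : P} (hk : k ∈ K) :
    Q N N' s true (cm (gC * gA * k) (pr 1 s)) := by
  obtain ⟨u, hu, v, hv, rfl⟩ := K_le_lift_G hk
  refine ⟨gA * (v * s * v⁻¹) * gA⁻¹, s⁻¹, ?_, ?_, ?_⟩
  · calc cm (gC * gA * pr u v) (pr 1 s)
        = gC * (gA * (pr u v * pr 1 s * (pr u v)⁻¹) * gA⁻¹) * gC⁻¹ * (pr 1 s)⁻¹ := by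
          unfold cm; group
      _ = gC * (pr (v * s * v⁻¹) 1) * gC⁻¹ * (pr 1 s)⁻¹ := by
          rw [gen_inv a, pr_inv, pr_mul, pr_mul, gA_pr_gA]
          congr 4
          group
      _ = pr (gA * (v * s * v⁻¹) * gA⁻¹) s⁻¹ := by
          rw [gC_eq, pr_inv, pr_mul, pr_mul, pr_inv, pr_mul]
          congr 1
          · group
  · exact cl_conj h (gen_mem a) (cl_conj h hv (cl_s h))
  · exact cl_inv h (cl_s h)

theorem base2 (h : Stage N N' s) {k : P} (hk : k ∈ K) :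
    Q N N' s true (cm (gA * gC * k) (pr 1 s)) := by
  obtain ⟨u, hu, v, hv, rfl⟩ := K_le_lift_G hk
  refine ⟨gD * (v * s * v⁻¹) * gD⁻¹, s⁻¹, ?_, ?_, ?_⟩
  · calc cm (gA * gC * pr u v) (pr 1 s)
        = gA * (gC * (pr u v * pr 1 s * (pr u v)⁻¹) * gC⁻¹) * gA⁻¹ * (pr 1 s)⁻¹ := by
          unfold cm; group
      _ = gA * (pr 1 (gD * (v * s * v⁻¹) * gD⁻¹)) * gA⁻¹ * (pr 1 s)⁻¹ := by
          rw [gC_eq, pr_inv, pr_inv, pr_mul, pr_mul, pr_mul, pr_mul]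
          congr 4
          group
      _ = pr (gD * (v * s * v⁻¹) * gD⁻¹) s⁻¹ := by
          rw [gen_inv a, gA_pr_gA, pr_inv, pr_mul]
          congr 1
  · exact cl_conj h (gen_mem d) (cl_conj h hv (cl_s h))
  · exact cl_inv h (cl_s h)

/-- The element `β`. -/
def be (e : Bool) : P := if e then tt else 1

theorem be_or (e : Bool) : be e = 1 ∨ be e = tt := by
  cases e
  · left; rfl
  · right; rfl

theorem split (h : Stage N N' s) (e : Bool) {B : P} (hB : (be e)⁻¹ * B ∈ lift K) :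
    ∃ B1 B2 : P, B = pr B1 B2 ∧ Q N N' s e (cm B1 (pr 1 s)) ∧ Q N N' s e (cm B2 (pr 1 s)) := by
  obtain ⟨k, hk, k', hk', e1⟩ := hB
  have e2 : B = be e * pr k k' := by rw [← e1]; group
  cases e
  · refine ⟨k, k', ?_, base0 h hk, base0 h hk'⟩
    rw [e2]
    simp [be]
  · refine ⟨gC * gA * k, gA * gC * k', ?_, base1 h hk, base2 h hk'⟩
    rw [e2]
    show tt * pr k k' = _
    rw [tt_eq, pr_mul]

theorem cm_one (x : P) : cm x 1 = 1 := by simp [cm]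

end ConstBaseAux

open ConstBaseAux

theorem constBase {N N' : Subgroup P} {s : P} (h : Stage N N' s) (f : Bool) (r : P)
    (hr : r ∈ lift (Dg N N')) :
    ∃ β0 β1 : P, (β0 = 1 ∨ β0 = tt) ∧ (β1 = 1 ∨ β1 = tt) ∧
      ∀ B0 B1 : P, β0⁻¹ * B0 ∈ lift K → β1⁻¹ * B1 ∈ lift K →
        r * (cm B0 (h1 s) * cm B1 (h2 f s))⁻¹ ∈ lift (lift N') := by
  obtain ⟨r0, hr0, r1, hr1, rfl⟩ := hr
  obtain ⟨p, hp, p', hp', hpp, rfl⟩ := h.mem_Dg.1 hr0
  obtain ⟨q, hq, q', hq', hqq, rfl⟩ := h.mem_Dg.1 hr1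
  obtain ⟨ε, hε⟩ := cl_exists h hp
  obtain ⟨η, hη⟩ := cl_exists h hq
  have Q0 : Q N N' s ε (pr p p') := ⟨p, p', rfl, hε, cl_congr h hε hp' hpp⟩
  have Q1 : Q N N' s η (pr q q') := ⟨q, q', rfl, hη, cl_congr h hη hq' hqq⟩
  refine ⟨be (if f then η else ε), be (xor ε η), be_or _, be_or _, fun B0 B1 hB0 hB1 => ?_⟩
  obtain ⟨x, x', rfl, hx, hx'⟩ := split h _ hB0
  obtain ⟨y, y', rfl, hy, hy'⟩ := split h _ hB1
  unfold h1 h2
  cases f
  · simp only [Bool.false_eq_true, if_false] at hx hx' ⊢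
    rw [cm_pr, cm_pr, cm_one, pr_mul, pr_inv, pr_mul, pr_mem_lift]
    constructor
    · apply Q_mem (N := N) (s := s)
      have h3 := Q_mul h Q0 (Q_inv h (Q_mul h hx Q_one))
      have e3 : xor ε (xor ε false) = false := by cases ε <;> rfl
      rwa [e3] at h3
    · apply Q_mem (N := N) (s := s)
      have h3 := Q_mul h Q1 (Q_inv h (Q_mul h hx' hy'))
      have e3 : xor η (xor ε (xor ε η)) = false := by cases ε <;> cases η <;> rfl
      rwa [e3] at h3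
  · simp only [if_true] at hx hx' ⊢
    rw [cm_pr, cm_pr, cm_one, pr_mul, pr_inv, pr_mul, pr_mem_lift]
    constructor
    · apply Q_mem (N := N) (s := s)
      have h3 := Q_mul h Q0 (Q_inv h (Q_mul h hx hy))
      have e3 : xor ε (xor η (xor ε η)) = false := by cases ε <;> cases η <;> rfl
      rwa [e3] at h3
    · apply Q_mem (N := N) (s := s)
      have h3 := Q_mul h Q1 (Q_inv h (Q_mul h hx' Q_one))
      have e3 : xor η (xor η false) = false := by cases η <;> rfl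
      rwa [e3] at h3

end Pool.Agent.Lib.Pb99418U
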