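import Pool.Agent.Lib.Pb99418U.Basic

/-!
# A substitution for `Ph`

`Ph g = (g, a g a)` is a homomorphism and commutes with the conjugation by `a`.  Moreover
`Ph b = abadaca`, `Ph (aba) = badac`, `Ph (ca) = abab`, `Ph (ac) = baba`, `Ph (da) = acac`,
`Ph (ad) = caca`.  Read a word `w` from the left and keep the parity `e` of the number of the
letters `a, c, d` already read: replace in state `0` `a ↦ ∅`, `b ↦ abadaca`, `c ↦ abab`,
`d ↦ acac` and in state `1` `a ↦ ∅`, `b ↦ badac`, `c ↦ baba`, `d ↦ caca` (the letters `a, c, d`
change the state).  If `w'` is the result when started in state `e` then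
`ev w' = Ph (a^e · ev w · a^{e + q})`, where `q` is the number of the letters `a, c, d` of `w`
(induction on `w`, using that `Ph` is a homomorphism).  For even `q` and `e = 0` this is
`Ph (ev w)`.  Every replacement word has an even number of letters `a, c, d`, and the weight
`x^2 #b + 2 x #c + 4 #d` is multiplied by `x`: `b`: `x^2 + 2 x + 4 = x^3`; `c`: `2 x^2`;
`d`: `4 x`.

`Ph_iter_len`: `m` applications, and then all the `aa` are deleted: for every word `w` there is a
word `u` of length at most twice the number of letters `b, c, d` of `w` with `ev w = ev u` or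
`ev w = a · ev u` (induction on `w`), and the number of letters `b, c, d` is at most `Wx x w / 4`
as `x ≥ 2`.
-/

namespace Pool.Agent.Lib.Pb99418U

open Pool.Agent.Lib.Pb99418 Gen

namespace PhiWAux

theorem aa : gA * gA = 1 := gen_mul_self _

end PhiWAux

open PhiWAux

theorem Ph_mul (g h : P) : Ph (g * h) = Ph g * Ph h := by
  simp only [Ph, pr_mul]
  congr 1
  calc gA * (g * h) * gA = gA * g * 1 * h * gA := by group
    _ = gA * g * (gA * gA) * h * gA := by rw [aa]
    _ = _ := by group

theorem Ph_one : Ph 1 = 1 := by
  simp only [Ph, mul_one, aa, pr_one]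

theorem Ph_inv (g : P) : Ph g⁻¹ = (Ph g)⁻¹ := by
  rw [eq_inv_iff_mul_eq_one, ← Ph_mul, inv_mul_cancel, Ph_one]

theorem Ph_conj (g : P) : Ph (gA * g * gA) = gA * Ph g * gA := by
  simp only [Ph, gA_pr_gA]
  congr 1
  calc gA * (gA * g * gA) * gA = (gA * gA) * g * (gA * gA) := by group
    _ = g := by rw [aa, one_mul, mul_one]

theorem Ph_iter_conj (m : ℕ) (g : P) : Ph^[m] (gA * g * gA) = gA * Ph^[m] g * gA := by
  induction m generalizing g with
  | zero => rfl
  | succ m ih => rw [Function.iterate_succ_apply, Function.iterate_succ_apply, Ph_conj, ih]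

namespace PhiWAux

/-- The substitution with state. -/
def phw : Bool → List Gen → List Gen
  | _, [] => []
  | false, a :: w => phw true w
  | true, a :: w => phw false w
  | false, b :: w => [a, b, a, d, a, c, a] ++ phw false w
  | true, b :: w => [b, a, d, a, c] ++ phw true w
  | false, c :: w => [a, b, a, b] ++ phw true w
  | true, c :: w => [b, a, b, a] ++ phw false w
  | false, d :: w => [a, c, a, c] ++ phw true w
  | true, d :: w => [c, a, c, a] ++ phw false w

/-- `a^e`. -/
def ae (e : Bool) : P := if e then gA else 1

/-- Final state. -/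
def fin : Bool → List Gen → Bool
  | e, [] => e
  | e, b :: w => fin e w
  | e, a :: w => fin (!e) w
  | e, c :: w => fin (!e) w
  | e, d :: w => fin (!e) w

theorem Ph_b : ev [a, b, a, d, a, c, a] = Ph gB := by
  have h1 : ev [a, b, a, d, a, c, a] = (gA * gB * gA) * gD * (gA * gC * gA) := by
    simp [mul_assoc]
  have e1 : gA * gB * gA = pr gC gA := by conv_lhs => rw [gB_eq, gA_pr_gA]
  have e2 : gA * gC * gA = pr gD gA := by conv_lhs => rw [gC_eq, gA_pr_gA]
  rw [h1, Ph, e1, e2]
  have e3 : pr gC gA * gD = pr gC (gA * gB) := by
    conv_lhs => rw [gD_eq, pr_mul, mul_one]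
  rw [e3, pr_mul, gC_gD, e1]

theorem Ph_aba : ev [b, a, d, a, c] = gA * Ph gB * gA := by
  rw [← Ph_b]
  simp only [ev_cons, ev_nil, mul_one]
  calc gB * (gA * (gD * (gA * gC)))
      = 1 * gB * gA * gD * gA * gC * 1 := by group
    _ = (gA * gA) * gB * gA * gD * gA * gC * (gA * gA) := by rw [aa]
    _ = _ := by group

theorem Ph_ca : ev [a, b, a, b] = Ph (gC * gA) := by
  have h1 : ev [a, b, a, b] = (gA * gB * gA) * gB := by simp [mul_assoc]
  rw [h1, Ph, gB_eq, gA_pr_gA, pr_mul]
  congr 1
  calc gA * gC = gA * gC * 1 := by group
    _ = gA * gC * (gA * gA) := by rw [aa]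
    _ = _ := by group

theorem Ph_da : ev [a, c, a, c] = Ph (gD * gA) := by
  have h1 : ev [a, c, a, c] = (gA * gC * gA) * gC := by simp [mul_assoc]
  rw [h1, Ph, gC_eq, gA_pr_gA, pr_mul]
  congr 1
  calc gA * gD = gA * gD * 1 := by group
    _ = gA * gD * (gA * gA) := by rw [aa]
    _ = _ := by group

theorem Ph_ac : ev [b, a, b, a] = Ph (gA * gC) := by
  have h1 : ev [b, a, b, a] = gA * ev [a, b, a, b] * gA := by
    simp only [ev_cons, ev_nil, mul_one]
    calc gB * (gA * (gB * gA)) = 1 * gB * gA * gB * gA := by group
      _ = (gA * gA) * gB * gA * gB * gA := by rw [aa]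
      _ = _ := by group
  rw [h1, Ph_ca, ← Ph_conj]
  congr 1
  calc gA * (gC * gA) * gA = gA * gC * (gA * gA) := by group
    _ = _ := by rw [aa, mul_one]

theorem Ph_ad : ev [c, a, c, a] = Ph (gA * gD) := by
  have h1 : ev [c, a, c, a] = gA * ev [a, c, a, c] * gA := by
    simp only [ev_cons, ev_nil, mul_one]
    calc gC * (gA * (gC * gA)) = 1 * gC * gA * gC * gA := by group
      _ = (gA * gA) * gC * gA * gC * gA := by rw [aa]
      _ = _ := by group
  rw [h1, Ph_da, ← Ph_conj]
  congr 1
  calc gA * (gD * gA) * gA = gA * gD * (gA * gA) := by group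
    _ = _ := by rw [aa, mul_one]

theorem ev_phw (e : Bool) (w : List Gen) : ev (phw e w) = Ph (ae e * ev w * ae (fin e w)) := by
  induction w generalizing e with
  | nil => cases e <;> simp [phw, fin, ae, Ph_one, aa]
  | cons x w ih =>
    cases x with
    | a =>
      cases e with
      | false =>
        show ev (phw true w) = Ph (1 * ev (a :: w) * ae (fin true w))
        rw [ih, ev_cons]
        refine congrArg Ph ?_
        simp [ae, mul_assoc]
      | true =>
        show ev (phw false w) = Ph (gA * ev (a :: w) * ae (fin false w))
        rw [ih, ev_cons]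
        congr 1
        simp only [ae, Bool.false_eq_true, if_false, one_mul]
        rw [← mul_assoc, aa, one_mul]
    | b =>
      cases e with
      | false =>
        show ev ([a, b, a, d, a, c, a] ++ phw false w) = Ph (1 * ev (b :: w) * ae (fin false w))
        rw [ev_append, ih, Ph_b, ← Ph_mul, ev_cons]
        refine congrArg Ph ?_
        simp [ae, mul_assoc]
      | true =>
        show ev ([b, a, d, a, c] ++ phw true w) = Ph (gA * ev (b :: w) * ae (fin true w))
        rw [ev_append, ih, Ph_aba, ← Ph_conj, ← Ph_mul, ev_cons]
        refine congrArg Ph ?_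
        show gA * gB * gA * (gA * ev w * ae (fin true w)) = _
        calc gA * gB * gA * (gA * ev w * ae (fin true w))
            = gA * gB * (gA * gA) * ev w * ae (fin true w) := by group
          _ = _ := by rw [aa]; group
    | c =>
      cases e with
      | false =>
        show ev ([a, b, a, b] ++ phw true w) = Ph (1 * ev (c :: w) * ae (fin true w))
        rw [ev_append, ih, Ph_ca, ← Ph_mul, ev_cons]
        refine congrArg Ph ?_
        show gC * gA * (gA * ev w * ae (fin true w)) = _
        calc gC * gA * (gA * ev w * ae (fin true w))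
            = gC * (gA * gA) * ev w * ae (fin true w) := by group
          _ = _ := by rw [aa]; group
      | true =>
        show ev ([b, a, b, a] ++ phw false w) = Ph (gA * ev (c :: w) * ae (fin false w))
        rw [ev_append, ih, Ph_ac, ← Ph_mul, ev_cons]
        refine congrArg Ph ?_
        simp [ae, mul_assoc]
    | d =>
      cases e with
      | false =>
        show ev ([a, c, a, c] ++ phw true w) = Ph (1 * ev (d :: w) * ae (fin true w))
        rw [ev_append, ih, Ph_da, ← Ph_mul, ev_cons]
        refine congrArg Ph ?_
        show gD * gA * (gA * ev w * ae (fin true w)) = _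
        calc gD * gA * (gA * ev w * ae (fin true w))
            = gD * (gA * gA) * ev w * ae (fin true w) := by group
          _ = _ := by rw [aa]; group
      | true =>
        show ev ([c, a, c, a] ++ phw false w) = Ph (gA * ev (d :: w) * ae (fin false w))
        rw [ev_append, ih, Ph_ad, ← Ph_mul, ev_cons]
        refine congrArg Ph ?_
        simp [ae, mul_assoc]

theorem fin_eq (e : Bool) (w : List Gen) :
    fin e w = xor e (decide (¬ Even (w.count a + w.count c + w.count d))) := by
  induction w generalizing e with
  | nil => simp [fin]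
  | cons x w ih =>
    cases x
    · rw [show fin e (a :: w) = fin (!e) w by cases e <;> rfl, ih]
      have : (a :: w).count a + (a :: w).count c + (a :: w).count d =
          (w.count a + w.count c + w.count d) + 1 := by
        simp [List.count_cons]; ring
      rw [this, show decide (¬ Even (w.count a + w.count c + w.count d + 1)) =
        !decide (¬ Even (w.count a + w.count c + w.count d)) by rw [Bool.eq_iff_iff]; simp only [decide_eq_true_eq, Bool.not_eq_true', decide_eq_false_iff_not, Nat.even_add_one]]
      cases e <;> simp
    · rw [show fin e (b :: w) = fin e w by cases e <;> rfl, ih]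
      have : (b :: w).count a + (b :: w).count c + (b :: w).count d =
          (w.count a + w.count c + w.count d) := by
        simp [List.count_cons]
      rw [this]
    · rw [show fin e (c :: w) = fin (!e) w by cases e <;> rfl, ih]
      have : (c :: w).count a + (c :: w).count c + (c :: w).count d =
          (w.count a + w.count c + w.count d) + 1 := by
        simp [List.count_cons]; ring
      rw [this, show decide (¬ Even (w.count a + w.count c + w.count d + 1)) =
        !decide (¬ Even (w.count a + w.count c + w.count d)) by rw [Bool.eq_iff_iff]; simp only [decide_eq_true_eq, Bool.not_eq_true', decide_eq_false_iff_not, Nat.even_add_one]]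
      cases e <;> simp
    · rw [show fin e (d :: w) = fin (!e) w by cases e <;> rfl, ih]
      have : (d :: w).count a + (d :: w).count c + (d :: w).count d =
          (w.count a + w.count c + w.count d) + 1 := by
        simp [List.count_cons]; ring
      rw [this, show decide (¬ Even (w.count a + w.count c + w.count d + 1)) =
        !decide (¬ Even (w.count a + w.count c + w.count d)) by rw [Bool.eq_iff_iff]; simp only [decide_eq_true_eq, Bool.not_eq_true', decide_eq_false_iff_not, Nat.even_add_one]]
      cases e <;> simp

theorem even_phw (e : Bool) (w : List Gen) :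
    Even ((phw e w).count a + (phw e w).count c + (phw e w).count d) := by
  induction w generalizing e with
  | nil => cases e <;> simp [phw]
  | cons x w ih =>
    have h0 := ih false
    have h1 := ih true
    cases x <;> cases e <;> simp only [phw, List.count_append] <;>
      first
      | exact h0
      | exact h1
      | (simp only [List.count_cons, List.count_nil]; simp only [Nat.even_iff] at *; simp; omega)

theorem Wx_phw (x : ℝ) (hx : x ^ 3 = x ^ 2 + 2 * x + 4) (e : Bool) (w : List Gen) :
    Wx x (phw e w) = x * Wx x w := by
  induction w generalizing e with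
  | nil => cases e <;> simp [phw, Wx]
  | cons y w ih =>
    have h0 := ih false
    have h1 := ih true
    unfold Wx at *
    cases y <;> cases e <;> simp only [phw, List.count_append, List.count_cons, List.count_nil] <;>
      simp <;> nlinarith [h0, h1, hx]

end PhiWAux

/-- One application of the substitution. -/
theorem Ph_word (x : ℝ) (hx : x ^ 3 = x ^ 2 + 2 * x + 4) (w : List Gen)
    (hw : Even (w.count a + w.count c + w.count d)) :
    ∃ w' : List Gen, ev w' = Ph (ev w) ∧ Even (w'.count a + w'.count c + w'.count d) ∧
      Wx x w' = x * Wx x w := by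
  refine ⟨phw false w, ?_, even_phw false w, Wx_phw x hx false w⟩
  rw [ev_phw, fin_eq]
  simp [hw, ae]

theorem reduce (w : List Gen) : ∃ u : List Gen,
    u.length ≤ 2 * (w.count b + w.count c + w.count d) ∧ (ev w = ev u ∨ ev w = gA * ev u) := by
  induction w with
  | nil => exact ⟨[], by simp, by simp⟩
  | cons x w ih =>
    obtain ⟨u, hu, h⟩ := ih
    have key : x ≠ a → ∃ u : List Gen,
        u.length ≤ 2 * ((x :: w).count b + (x :: w).count c + (x :: w).count d) ∧
        (ev (x :: w) = ev u ∨ ev (x :: w) = gA * ev u) := by
      intro hx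
      have hc : (x :: w).count b + (x :: w).count c + (x :: w).count d =
          w.count b + w.count c + w.count d + 1 := by
        cases x
        · exact absurd rfl hx
        · simp [List.count_cons]; ring
        · simp [List.count_cons]; ring
        · simp [List.count_cons]; ring
      rcases h with h | h
      · refine ⟨x :: u, ?_, Or.inl ?_⟩
        · rw [hc]; simp; omega
        · rw [ev_cons, h, ev_cons]
      · refine ⟨x :: a :: u, ?_, Or.inl ?_⟩
        · rw [hc]; simp; omega
        · rw [ev_cons, h, ev_cons, ev_cons]
    by_cases hx : x = a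
    · subst hx
      have hc : (a :: w).count b + (a :: w).count c + (a :: w).count d =
          w.count b + w.count c + w.count d := by simp [List.count_cons]
      rw [hc]
      refine ⟨u, hu, ?_⟩
      rcases h with h | h
      · right; rw [ev_cons, h]
      · left; rw [ev_cons, h, ← mul_assoc, aa, one_mul]
    · exact key hx

theorem Ph_iter_len (x : ℝ) (hx : x ^ 3 = x ^ 2 + 2 * x + 4) (hx2 : 2 ≤ x) (w : List Gen)
    (hw : Even (w.count a + w.count c + w.count d)) (m : ℕ) :
    ∃ w' : List Gen, ev w' = Ph^[m] (ev w) ∧ (w'.length : ℝ) ≤ x ^ m * Wx x w / 2 + 1 := by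
  have h1 : ∃ w' : List Gen, ev w' = Ph^[m] (ev w) ∧
      Even (w'.count a + w'.count c + w'.count d) ∧ Wx x w' = x ^ m * Wx x w := by
    induction m with
    | zero => exact ⟨w, rfl, hw, by simp⟩
    | succ m ih =>
      obtain ⟨w', h1, h2, h3⟩ := ih
      obtain ⟨w'', h4, h5, h6⟩ := Ph_word x hx w' h2
      refine ⟨w'', ?_, h5, ?_⟩
      · rw [h4, h1, Function.iterate_succ_apply']
      · rw [h6, h3, pow_succ]; ring
  obtain ⟨w', h1, _, h3⟩ := h1
  obtain ⟨u, hu, h⟩ := reduce w'
  have hcount : 4 * ((w'.count b : ℝ) + w'.count c + w'.count d) ≤ Wx x w' := by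
    unfold Wx
    have hb : (0 : ℝ) ≤ w'.count b := Nat.cast_nonneg _
    have hc : (0 : ℝ) ≤ w'.count c := Nat.cast_nonneg _
    have hx4 : 4 ≤ x ^ 2 := by nlinarith
    nlinarith [mul_le_mul_of_nonneg_right hx4 hb, mul_le_mul_of_nonneg_right hx2 hc]
  have hu' : (u.length : ℝ) ≤ 2 * ((w'.count b : ℝ) + w'.count c + w'.count d) := by
    exact_mod_cast hu
  rcases h with h | h
  · exact ⟨u, by rw [← h, h1], by rw [← h3]; linarith⟩
  · refine ⟨a :: u, by rw [ev_cons, ← h, h1], ?_⟩
    rw [← h3]
    simp only [List.length_cons, Nat.cast_add, Nat.cast_one]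
    linarith

end Pool.Agent.Lib.Pb99418U
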