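import Pool.Agent.Lib.Pb99418U.ConstBase
import Pool.Agent.Lib.Pb99418U.PhiW

/-!
# Killing the constant part, at level `m`

The statement of `ConstBase` with `h1`, `h2 f` replaced by `Ph^m h1`, `Ph^m (h2 f)`, the root
replaced by the level `m`.

Proof by induction on `m` for both `f` simultaneously.  `m = 0` is `constBase` (with
`β ∈ {1, t} ⊆ K`).  Step: `r ∈ lv (m + 2) (Dg N N') = lift (lv (m + 1) (Dg N N'))`, so
`r = pr r0 r1`.  We have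
`Ph^(m+1) g = Ph (Ph^m g) = pr (Ph^m g) (a (Ph^m g) a) = pr (Ph^m g) (Ph^m (a g a))` by
`Ph_iter_conj`, and `a h1 a = h1`, `a (h2 f) a = h2 (!f)` (`gA_pr_gA`).  Apply the induction
hypothesis to `f`, `r0` and to `!f`, `r1`, giving `β0, β1` and `β0', β1'`, and take `pr β0 β0'`,
`pr β1 β1'`, which are in `lift (lv m K) = lv (m + 1) K`.  If
`(pr β0 β0')⁻¹ * B0 ∈ lv (m + 2) K = lift (lv (m + 1) K)` then `B0 = pr B00 B01` with
`β0⁻¹ * B00 ∈ lv (m + 1) K`, `β0'⁻¹ * B01 ∈ lv (m + 1) K`, similarly `B1`, and the commutators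
of pairs are the pairs of the commutators.
-/

namespace Pool.Agent.Lib.Pb99418U

open Pool.Agent.Lib.Pb99418 Gen

namespace ConstLvAux

theorem h1_conj (s : P) : gA * h1 s * gA = h1 s := by
  rw [h1, gA_pr_gA]

theorem h2_conj (f : Bool) (s : P) : gA * h2 f s * gA = h2 (!f) s := by
  cases f <;> simp only [h2] <;> simp [gA_pr_gA]

theorem Ph_succ (m : ℕ) (g : P) : Ph^[m + 1] g = pr (Ph^[m] g) (Ph^[m] (gA * g * gA)) := by
  rw [Function.iterate_succ_apply', Ph, Ph_iter_conj]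

theorem Ph_h1 (m : ℕ) (s : P) : Ph^[m + 1] (h1 s) = pr (Ph^[m] (h1 s)) (Ph^[m] (h1 s)) := by
  rw [Ph_succ, h1_conj]

theorem Ph_h2 (m : ℕ) (f : Bool) (s : P) :
    Ph^[m + 1] (h2 f s) = pr (Ph^[m] (h2 f s)) (Ph^[m] (h2 (!f) s)) := by
  rw [Ph_succ, h2_conj]

end ConstLvAux

open ConstLvAux

theorem constLv {N N' : Subgroup P} {s : P} (h : Stage N N' s) (m : ℕ) (f : Bool) (r : P)
    (hr : r ∈ lv (m + 1) (Dg N N')) :
    ∃ β0 ∈ lv m K, ∃ β1 ∈ lv m K,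
      ∀ B0 B1 : P, β0⁻¹ * B0 ∈ lv (m + 1) K → β1⁻¹ * B1 ∈ lv (m + 1) K →
        r * (cm B0 (Ph^[m] (h1 s)) * cm B1 (Ph^[m] (h2 f s)))⁻¹ ∈ lv (m + 2) N' := by
  induction m generalizing f r with
  | zero =>
    obtain ⟨β0, β1, hb0, hb1, H⟩ := constBase h f r hr
    refine ⟨β0, ?_, β1, ?_, H⟩
    · rcases hb0 with rfl | rfl
      · exact K.one_mem
      · exact tt_mem_K
    · rcases hb1 with rfl | rfl
      · exact K.one_mem
      · exact tt_mem_K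
  | succ m ih =>
    obtain ⟨r0, hr0, r1, hr1, rfl⟩ := hr
    obtain ⟨β0, hb0, β1, hb1, H⟩ := ih f r0 hr0
    obtain ⟨γ0, hc0, γ1, hc1, H'⟩ := ih (!f) r1 hr1
    refine ⟨pr β0 γ0, ⟨β0, hb0, γ0, hc0, rfl⟩, pr β1 γ1, ⟨β1, hb1, γ1, hc1, rfl⟩, ?_⟩
    intro B0 B1 hB0 hB1
    obtain ⟨u0, hu0, v0, hv0, e0⟩ := hB0
    obtain ⟨u1, hu1, v1, hv1, e1⟩ := hB1
    have E0 : B0 = pr (β0 * u0) (γ0 * v0) := by
      rw [← pr_mul, ← e0]; group
    have E1 : B1 = pr (β1 * u1) (γ1 * v1) := by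
      rw [← pr_mul, ← e1]; group
    have k0 := H (β0 * u0) (β1 * u1) (by simpa using hu0) (by simpa using hu1)
    have k1 := H' (γ0 * v0) (γ1 * v1) (by simpa using hv0) (by simpa using hv1)
    rw [E0, E1, Ph_h1, Ph_h2, cm_pr, cm_pr, pr_mul, pr_inv, pr_mul]
    exact ⟨_, k0, _, k1, rfl⟩

end Pool.Agent.Lib.Pb99418U
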