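import Pool.Agent.Lib.Pb99418U.KFacts

/-!
# `G / K` is finite

Every `g ∈ G` is congruent modulo `K` to one of the sixteen elements
`b^i (ad)^j a^l`, `i, l ∈ {0, 1}`, `j ∈ {0, 1, 2, 3}`, which is a word of length at most
`1 + 6 + 1 = 8`.

Proof.  Modulo `K` (normal in `G`, `K_conj`): `ab ≡ ba` since `(ab)^2 ∈ K` (and `a, b` are
involutions), and `bd = db` (`gB_gD`, `gD_gB`).  Write `g = ev w` and use induction on `w` from the
left: `b · b^i (ad)^j a^l = b^{i+1} …`; `a · b^i (ad)^j a^l ≡ b^i a (ad)^j a^l` and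
`a (ad)^j a^l = (ad)^{-j} a^{l+1}` (as `a (ad) a = (ad)⁻¹`) `= (ad)^{4-j} a^{l+1}` (`ad4`);
`d · b^i … = b^i d (ad)^j a^l`, `d = a (ad)`, so `d (ad)^j a^l = a (ad)^{j+1} a^l`, reduced to the
previous case; `c = b d` (`gB_gD`).
Only the existence of a bound is needed: any finite set of words whose set of cosets is stable
under left multiplication by the generators does it.
-/

namespace Pool.Agent.Lib.Pb99418U

open Pool.Agent.Lib.Pb99418 Gen

namespace CovZeroAux

/-- `b^i (ad)^j a^l` -/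
def E (i j l : ℕ) : P := gB ^ i * (gA * gD) ^ j * gA ^ l

theorem ad3_a : (gA * gD) ^ 3 * gA = gD := by
  have h : (gA * gD) ^ 3 * gA * gD = 1 := by
    rw [mul_assoc, ← pow_succ]
    exact ad4
  have h2 := eq_inv_of_mul_eq_one_left h
  rw [h2, gen_inv]

theorem a_E0 (j l : ℕ) : gA * E 0 j l = E 0 (3 * j) (l + 1) := by
  have h1 : SemiconjBy gA (gA * gD) ((gA * gD) ^ 3) := by
    show gA * (gA * gD) = (gA * gD) ^ 3 * gA
    rw [ad3_a, ← mul_assoc, gen_mul_self, one_mul]
  have h2 : gA * (gA * gD) ^ j = ((gA * gD) ^ 3) ^ j * gA := h1.pow_right j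
  unfold E
  rw [pow_zero, one_mul, one_mul, ← mul_assoc, h2, ← pow_mul, mul_assoc, ← pow_succ']

theorem d_E0 (j l : ℕ) : gD * E 0 j l = E 0 (3 * (j + 1)) (l + 1) := by
  have h : ∀ X : P, gA * (gA * X) = X := fun X => by rw [← mul_assoc, gen_mul_self, one_mul]
  have h2 : gD * E 0 j l = gA * E 0 (j + 1) l := by
    unfold E
    rw [pow_zero, one_mul, one_mul, pow_succ' (gA * gD) j]
    simp only [mul_assoc]
    rw [h]
  rw [h2, a_E0]

theorem E_eq (i j l : ℕ) : E i j l = gB ^ i * E 0 j l := by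
  unfold E
  rw [pow_zero, one_mul, mul_assoc]

theorem E_mod (i j l : ℕ) : E i j l = E (i % 2) (j % 4) (l % 2) := by
  unfold E
  rw [pow_eq_pow_mod i (show gB ^ 2 = 1 by rw [pow_two, gen_mul_self]), pow_eq_pow_mod j ad4,
    pow_eq_pow_mod l (show gA ^ 2 = 1 by rw [pow_two, gen_mul_self])]

theorem comm_D_B (i : ℕ) : gD * gB ^ i = gB ^ i * gD := by
  have h : Commute gD gB := by
    show gD * gB = gB * gD
    rw [gD_gB, gB_gD]
  exact h.pow_right i

theorem d_E (i j l : ℕ) : gD * E i j l = E i (3 * (j + 1)) (l + 1) := by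
  rw [E_eq, ← mul_assoc, comm_D_B, mul_assoc, d_E0, ← E_eq]

theorem b_E (i j l : ℕ) : gB * E i j l = E (i + 1) j l := by
  rw [E_eq, ← mul_assoc, ← pow_succ', ← E_eq]

theorem a_E1 (j l : ℕ) : gA * E 1 j l = tt * E 1 (3 * j) (l + 1) := by
  have hab : gA * gB = tt * gB * gA := by
    show gA * gB = gA * gB * gA * gB * gB * gA
    have : gA * gB * gA * gB * gB * gA = gA * gB * gA * (gB * gB) * gA := by group
    rw [this, gen_mul_self, mul_one, mul_assoc (gA * gB), gen_mul_self, mul_one]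
  rw [E_eq 1, E_eq 1 (3 * j), pow_one, ← mul_assoc, hab, mul_assoc, a_E0]
  simp only [mul_assoc]

theorem a_E (i j l : ℕ) : ∃ i' j' l' : ℕ, gA * E i j l * (E i' j' l')⁻¹ ∈ K := by
  rw [E_mod]
  rcases Nat.mod_two_eq_zero_or_one i with h | h
  · rw [h, a_E0]
    exact ⟨_, _, _, by rw [mul_inv_cancel]; exact K.one_mem⟩
  · rw [h, a_E1]
    refine ⟨1, 3 * (j % 4), l % 2 + 1, ?_⟩
    rw [mul_inv_cancel_right]
    exact tt_mem_K

theorem step (x : Gen) (i j l : ℕ) : ∃ i' j' l' : ℕ, gen x * E i j l * (E i' j' l')⁻¹ ∈ K := by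
  have hone : ∀ g : P, g * g⁻¹ ∈ K := fun g => by rw [mul_inv_cancel]; exact K.one_mem
  cases x with
  | a => exact a_E i j l
  | b => exact ⟨i + 1, j, l, by rw [b_E]; exact hone _⟩
  | c =>
    refine ⟨i + 1, 3 * (j + 1), l + 1, ?_⟩
    have : gC * E i j l = E (i + 1) (3 * (j + 1)) (l + 1) := by
      rw [← gB_gD, mul_assoc, d_E, b_E]
    rw [this]
    exact hone _
  | d => exact ⟨i, 3 * (j + 1), l + 1, by rw [d_E]; exact hone _⟩

theorem main {g : P} (hg : g ∈ G) : ∃ i j l : ℕ, g * (E i j l)⁻¹ ∈ K := by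
  obtain ⟨w, rfl⟩ := exists_ev hg
  clear hg
  induction w with
  | nil => exact ⟨0, 0, 0, by simp [E, K.one_mem]⟩
  | cons x w ih =>
    obtain ⟨i, j, l, h⟩ := ih
    obtain ⟨i', j', l', h'⟩ := step x i j l
    refine ⟨i', j', l', ?_⟩
    have e : ev (x :: w) * (E i' j' l')⁻¹ = gen x * (ev w * (E i j l)⁻¹) * (gen x)⁻¹ *
        (gen x * E i j l * (E i' j' l')⁻¹) := by
      rw [ev_cons]
      group
    rw [e]
    exact K.mul_mem (K_conj (gen_mem x) h) h'

/-- the word of `E i j l` -/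
def wd (i j l : ℕ) : List Gen := List.replicate i b ++ ((List.replicate j [a, d]).flatten ++ List.replicate l a)

theorem ev_rep (x : Gen) (i : ℕ) : ev (List.replicate i x) = gen x ^ i := by
  induction i with
  | zero => simp
  | succ i ih => rw [List.replicate_succ, ev_cons, ih, pow_succ']

theorem ev_flat (j : ℕ) : ev ((List.replicate j [a, d]).flatten) = (gA * gD) ^ j := by
  induction j with
  | zero => simp
  | succ j ih => rw [List.replicate_succ, List.flatten_cons, ev_append, ih, pow_succ']; simp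

theorem ev_wd (i j l : ℕ) : ev (wd i j l) = E i j l := by
  unfold wd E
  rw [ev_append, ev_append, ev_rep, ev_rep, ev_flat, mul_assoc]

theorem length_wd (i j l : ℕ) : (wd i j l).length = i + (2 * j + l) := by
  unfold wd
  rw [List.length_append, List.length_append, List.length_replicate, List.length_replicate, List.length_flatten]
  simp [mul_comm]

end CovZeroAux

open CovZeroAux

theorem cov_zero : ∃ L : ℝ, Cov 0 L := by
  refine ⟨8, fun g hg => ?_⟩
  obtain ⟨i, j, l, h⟩ := main hg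
  refine ⟨wd (i % 2) (j % 4) (l % 2), ?_, ?_⟩
  · rw [length_wd]
    have : i % 2 + (2 * (j % 4) + l % 2) ≤ 8 := by omega
    exact_mod_cast this
  · rw [ev_wd, ← E_mod]
    exact h

end Pool.Agent.Lib.Pb99418U
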