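import Pool.Agent.Lib.Pb99418U.KFacts

/-!
# The subgroups `lv i K`

* `lv_K_le`: `lv i K ≤ K ≤ G`: induction, `lv (i + 1) K = lv i (lift K) ≤ lv i K` (`lv_mono`,
  `lift_K_le`).
* `lv_K_anti`: `lv (i + j) K ≤ lv i K`.
* `lv_conj`: if `N` is normalised by `G` then so is `lv i N` (`lift_conj`, induction).
* `lv_fix`: the elements of `lv i K` fix the words of length `i`: induction,
  `pr f g (x :: w) = x :: …`; `i = 0`: the elements of `G` preserve the length.
* `Cov.mono`: trivial.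
* `Cov.word`: if `g ∈ G` and `Cov i L` then there is a word `w` with `w.length ≤ L` and
  `g⁻¹ * ev w ∈ lv i K`: apply the definition to `g`; `g (ev w)⁻¹ ∈ lv i K`, which is normalised by
  `G`; `g⁻¹ (ev w) = g⁻¹ · (g (ev w)⁻¹)⁻¹ · g`.
-/

namespace Pool.Agent.Lib.Pb99418U

open Pool.Agent.Lib.Pb99418 Gen

theorem lv_K_anti (i j : ℕ) : lv (i + j) K ≤ lv i K := by
  induction j with
  | zero => exact le_refl _
  | succ j ih =>
    refine le_trans ?_ ih
    rw [← Nat.add_assoc, lv_succ']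
    exact lv_mono _ lift_K_le

theorem lv_K_le (i : ℕ) : lv i K ≤ K := by
  have := lv_K_anti 0 i
  simpa using this

theorem lv_conj {N : Subgroup P} (hN : ∀ g ∈ G, ∀ n ∈ N, g * n * g⁻¹ ∈ N) (i : ℕ) :
    ∀ g ∈ G, ∀ n ∈ lv i N, g * n * g⁻¹ ∈ lv i N := by
  induction i with
  | zero => exact hN
  | succ i ih => exact lift_conj ih

theorem lv_fix (i : ℕ) {g : P} (hg : g ∈ lv i K) {w : List Bool}
    (hw : w.length = i) : g w = w := by
  induction i generalizing g w with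
  | zero =>
    have : w = [] := List.length_eq_zero_iff.1 hw
    subst this
    have h1 := length_apply g (K_le_G hg) []
    exact List.length_eq_zero_iff.1 (by rw [h1]; rfl)
  | succ i ih =>
    obtain ⟨f, hf, h, hh, rfl⟩ := hg
    rcases w with _ | ⟨x, w⟩
    · simp at hw
    · have hw' : w.length = i := by simpa using hw
      cases x
      · rw [pr_false, ih hf hw']
      · rw [pr_true, ih hh hw']

theorem Cov.mono {i : ℕ} {L L' : ℝ} (h : Cov i L) (hL : L ≤ L') : Cov i L' := by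
  intro g hg
  obtain ⟨w, hw, h1⟩ := h g hg
  exact ⟨w, hw.trans hL, h1⟩

theorem Cov.nonneg {i : ℕ} {L : ℝ} (h : Cov i L) : 0 ≤ L := by
  obtain ⟨w, hw, _⟩ := h 1 G.one_mem
  exact (Nat.cast_nonneg _).trans hw

theorem Cov.word {i : ℕ} {L : ℝ} (h : Cov i L) {g : P} (hg : g ∈ G) :
    ∃ w : List Gen, (w.length : ℝ) ≤ L ∧ g⁻¹ * ev w ∈ lv i K := by
  obtain ⟨w, hw, h1⟩ := h g hg
  refine ⟨w, hw, ?_⟩
  have h2 := lv_conj (fun _ hg _ hk => K_conj hg hk) i g⁻¹ (G.inv_mem hg) _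
    ((lv i K).inv_mem h1)
  have : g⁻¹ * (g * (ev w)⁻¹)⁻¹ * g⁻¹⁻¹ = g⁻¹ * ev w := by group
  rwa [this] at h2

end Pool.Agent.Lib.Pb99418U
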