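import Pool.Agent.Lib.Pb99418U.ConstLv
import Pool.Agent.Lib.Pb99418U.LvG
import Pool.Agent.Lib.Pb99418U.NiceW

/-!
# Filling one stage at level `j`

Claim: if `(N, N', s)` is a stage, `s = ev w` with `w` nice, and `Cov i (L i)` for all `i < j`, then
every `r ∈ lv j N` is congruent modulo `lv j N'` to a word of length at most
`4 ∑_{i < j} L i + 200 (V w + 1) x^j`.

Proof by induction on `j` (for all stages).  `j = 0`: `r ∈ N`; by `Stage.idx` `r ∈ N'` (empty
word) or `r s⁻¹ ∈ N'` (the word `w`, of length at most `V w`).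

Step `j → j + 1`: `r ∈ lv (j + 1) N = lv j (lift N)` (`lv_succ'`).  By the induction hypothesis for
the stage `(lift N, Dg N N', pr 1 s)` (`Stage.one`) and the nice word `psi w` (`Nice.psi`,
`Nice.ev_psi`) there is a word `u` of length at most
`4 ∑_{i < j} L i + 200 (9/4 V w + 1) x^j` with `r' = r (ev u)⁻¹ ∈ lv j (Dg N N')`.
* `j = 0`: `r' ∈ Dg N N'`; by `Stage.two` `r' ∈ lift N'` or `r' (pr s s)⁻¹ ∈ lift N'`,
  `pr s s = ev (dbl w)` (`Nice.ev_dbl`) and `dbl w` has length at most
  `V (dbl w) = 8 + 2 V (psi w) ≤ 8 + 9/2 V w`.  The answer is the word `dbl w ++ u` (or `u`):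
  `r (ev (v ++ u))⁻¹ = r (ev u)⁻¹ (ev v)⁻¹ = r' (ev v)⁻¹`.  Total at most
  `V (psi w) + 8 + 2 V (psi w) ≤ 8 + 27/4 V w ≤ 200 (V w + 1) x` (for `j = 0` use the induction
  hypothesis with its bound `200 (9/4 V w + 1)`:  `200 (9/4 V + 1) + 8 + 9/2 V ≤ 200 (V + 1) x`
  since `2.46 ≤ x`: `450 V + 4.5 V ≤ 492 V`, `208 ≤ 492`).
* `j = m + 1`: by `constLv` (with `f = false`) there are `β0, β1 ∈ lv m K ≤ G`; let `v0, v1` be
  words of length at most `L (m + 1) = L j` with `β⁻¹ * ev v ∈ lv (m + 1) K` (`Cov.word` for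
  `i = m + 1 = j`, which is allowed as `j < j + 1`).  By `Ph_iter_len` there are words `k1, k2` for
  `Ph^m (h1 s)`, `Ph^m (h2 false s)`: `h1 s = ev (dbl (psi w))`, `h2 false s = ev (psi (psi w))`,
  nice words, of length at most `x^m Wx/2 + 1`, and `Wx x w' ≤ 6.25 V w'` as `x ≤ 5/2`.  The word is
  `v0 k1 v0ʳ k1ʳ v1 k2 v1ʳ k2ʳ u` (`ʳ` = reversed, `ev_reverse`), of length at most
  `4 L j + 2 (x^m Wx(k1)/2 + 1) + 2 (x^m Wx(k2)/2 + 1) + |u|` and
  `Wx(dbl (psi w)) ≤ 6.25 (8 + 2 (81/16) V w)`, `Wx(psi (psi w)) ≤ 6.25 (81/16) V w`, in total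
  `4 L j + 100 (V w + 1) x^m + |u|`; finally
  `200 (9/4 V + 1) x^j + 100 (V + 1) x^{j-1} ≤ 200 (V + 1) x^{j+1}` as `x ≥ 2.46`:
  with `y = x^{j-1}`: `(450 V + 200) x + 100 (V + 1) ≤ 200 (V + 1) x^2`:
  `200 x^2 - 450 x ≥ 100` and `200 x^2 - 200 x ≥ 100`.
-/

namespace Pool.Agent.Lib.Pb99418U

open Pool.Agent.Lib.Pb99418 Gen

namespace FillAux

theorem Wx_le {x : ℝ} (hx1 : 2.46 ≤ x) (hx2 : x ≤ 5 / 2) (w : List Gen) :
    Wx x w ≤ 25 / 4 * V w := by
  have hb : (0 : ℝ) ≤ w.count b := Nat.cast_nonneg _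
  have hc : (0 : ℝ) ≤ w.count c := Nat.cast_nonneg _
  have hd : (0 : ℝ) ≤ w.count d := Nat.cast_nonneg _
  have ha : (0 : ℝ) ≤ w.count a := Nat.cast_nonneg _
  have h2 : x ^ 2 ≤ 25 / 4 := by nlinarith
  have e1 : x ^ 2 * w.count b ≤ 25 / 4 * w.count b := mul_le_mul_of_nonneg_right h2 hb
  have e2 : 2 * x * w.count c ≤ 25 / 4 * w.count c :=
    mul_le_mul_of_nonneg_right (by linarith) hc
  unfold Wx V
  nlinarith

theorem parity {w : List Gen} (h : Nice w) : Even (w.count a + w.count c + w.count d) :=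
  (h.ea.add h.ec).add h.ed

end FillAux

open FillAux in
theorem fill (x : ℝ) (hx : x ^ 3 = x ^ 2 + 2 * x + 4) (hx1 : 2.46 ≤ x) (hx2 : x ≤ 5 / 2)
    (j : ℕ) (N N' : Subgroup P) (w : List Gen) (hs : Stage N N' (ev w)) (hw : Nice w)
    (L : ℕ → ℝ) (hL : ∀ i < j, Cov i (L i)) (r : P) (hr : r ∈ lv j N) :
    ∃ u : List Gen, (u.length : ℝ) ≤
        4 * ∑ i ∈ Finset.range j, L i + 200 * (V w + 1) * x ^ j ∧
      r * (ev u)⁻¹ ∈ lv j N' := by
  induction j generalizing N N' w r with
  | zero =>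
    have hV := V_nonneg w
    rcases hs.idx r hr with h | h
    · refine ⟨[], ?_, by simpa using h⟩
      simp only [List.length_nil, Nat.cast_zero, Finset.range_zero, Finset.sum_empty, mul_zero,
        pow_zero, mul_one, zero_add]
      linarith
    · refine ⟨w, ?_, h⟩
      have := length_le_V w
      simp only [Finset.range_zero, Finset.sum_empty, mul_zero, pow_zero, mul_one, zero_add]
      linarith
  | succ j ih =>
    have hV := V_nonneg w
    have hV1 := V_psi w
    have hV1' := V_nonneg (psi w)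
    rw [lv_succ'] at hr
    have hone := hs.one
    rw [← hw.ev_psi] at hone
    obtain ⟨u, hu, hur⟩ := ih (lift N) (Dg N N') (psi w) hone hw.psi
      (fun i hi => hL i (Nat.lt_succ_of_lt hi)) r hr
    rcases j with _ | m
    · simp only [Finset.range_zero, Finset.sum_empty, mul_zero, pow_zero, mul_one, zero_add] at hu
      have h0 : 0 ≤ L 0 := (hL 0 (by norm_num)).nonneg
      have hlen : (u.length : ℝ) ≤ 4 * ∑ i ∈ Finset.range (0 + 1), L i + 200 * (V w + 1) * x ^ (0 + 1) := by
        simp only [zero_add, Finset.sum_range_one, pow_one]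
        nlinarith
      rcases hs.two.idx _ hur with h | h
      · exact ⟨u, hlen, h⟩
      · refine ⟨dbl w ++ u, ?_, ?_⟩
        · have h3 := length_le_V (dbl w)
          rw [V_dbl] at h3
          rw [List.length_append]
          push_cast
          simp only [zero_add, Finset.sum_range_one, pow_one]
          nlinarith
        · rw [ev_append, hw.ev_dbl, mul_inv_rev, ← mul_assoc]
          exact h
    · obtain ⟨β0, hβ0, β1, hβ1, hβ⟩ := constLv hs m false _ hur
      have hc := hL (m + 1) (Nat.lt_succ_self _)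
      obtain ⟨v0, hv0, hv0'⟩ := hc.word (K_le_G (lv_K_le m hβ0))
      obtain ⟨v1, hv1, hv1'⟩ := hc.word (K_le_G (lv_K_le m hβ1))
      have n1 : Nice (dbl (psi w)) := hw.psi.dbl
      have n2 : Nice (psi (psi w)) := hw.psi.psi
      obtain ⟨k1, hk1, hk1'⟩ := Ph_iter_len x hx (by linarith) (dbl (psi w)) (parity n1) m
      obtain ⟨k2, hk2, hk2'⟩ := Ph_iter_len x hx (by linarith) (psi (psi w)) (parity n2) m
      have e1 : ev (dbl (psi w)) = h1 (ev w) := by
        rw [hw.psi.ev_dbl, hw.ev_psi]; rfl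
      have e2 : ev (psi (psi w)) = h2 false (ev w) := by
        rw [hw.psi.ev_psi, hw.ev_psi]; rfl
      have hfin := hβ (ev v0) (ev v1) hv0' hv1'
      refine ⟨(v0 ++ k1 ++ v0.reverse ++ k1.reverse) ++ (v1 ++ k2 ++ v1.reverse ++ k2.reverse) ++ u,
        ?_, ?_⟩
      · have V2 := V_psi (psi w)
        have V3 := V_dbl (psi w)
        have w1 := Wx_le hx1 hx2 (dbl (psi w))
        have w2 := Wx_le hx1 hx2 (psi (psi w))
        have hy : 1 ≤ x ^ m := one_le_pow₀ (by linarith)
        have a1 : Wx x (dbl (psi w)) + Wx x (psi (psi w)) ≤ 50 + 95 * V w := by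
          rw [V3] at w1
          linarith
        have a2 : x ^ m * (Wx x (dbl (psi w)) + Wx x (psi (psi w))) ≤ x ^ m * (50 + 95 * V w) :=
          mul_le_mul_of_nonneg_left a1 (by linarith)
        have a3 : 200 * (V (psi w) + 1) * x ^ (m + 1) ≤ 200 * (9 / 4 * V w + 1) * (x * x ^ m) := by
          rw [pow_succ, mul_comm (x ^ m) x]
          apply mul_le_mul_of_nonneg_right (by linarith)
          have : 0 ≤ x := by linarith
          positivity
        have a4 : 0 ≤ V w * (200 * x ^ 2 - 450 * x - 100) + (200 * x ^ 2 - 200 * x - 100) := by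
          have b1 : 0 ≤ 200 * x ^ 2 - 450 * x - 100 := by nlinarith
          have b2 : 0 ≤ 200 * x ^ 2 - 200 * x - 100 := by nlinarith
          have := mul_nonneg hV b1
          linarith
        have a5 := mul_nonneg (by linarith : (0 : ℝ) ≤ x ^ m) a4
        have a6 : x ^ m * (50 + 95 * V w) + 4 ≤ x ^ m * (100 * (V w + 1)) := by
          nlinarith [mul_nonneg (by linarith : (0 : ℝ) ≤ x ^ m) hV]
        rw [Finset.sum_range_succ]
        simp only [List.length_append, List.length_reverse]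
        push_cast
        have a7 : x ^ (m + 1 + 1) = x ^ 2 * x ^ m := by ring
        rw [a7]
        nlinarith
      · rw [ev_append, ev_append, ev_append, ev_append, ev_append, ev_append, ev_append, ev_append,
          ev_reverse, ev_reverse, ev_reverse, ev_reverse, hk1, hk2, e1, e2, mul_inv_rev,
          ← mul_assoc]
        exact hfin

end Pool.Agent.Lib.Pb99418U
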