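import Pool.Agent.Lib.Pb99418U.Numeric

/-!
# The diameters

* `D_le_of_cov`: `D n = len n q` for some `q` (`D_isGreatest`), `q` is the image of `g ∈ G`, and
  `Cov n L` gives a word `w` of length at most `L` with `g (ev w)⁻¹ ∈ lv n K`, which fixes the words
  of length `n` (`lv_fix`), so the image of `elt w` is `q` and `len n q ≤ w.length`.
* `D_pos`: `a` acts nontrivially on level `n ≥ 1`.
* `D_low`: `ell_le_D`, `ell_growth` for `n ≥ 3` and `D_pos` for `n = 1, 2`.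
-/

namespace Pool.Agent.Lib.Pb99418U

open Pool.Agent.Lib.Pb99418 Gen

theorem D_le_of_cov {n : ℕ} {L : ℝ} (h : Cov n L) : (D n : ℝ) ≤ L := by
  obtain ⟨q, hq⟩ := (D_isGreatest n).1
  obtain ⟨g, rfl⟩ := QuotientGroup.mk_surjective q
  obtain ⟨w, hwL, hw⟩ := h g g.2
  have h1 : (w.map (gbar n)).prod = (g : Gn n) := by
    rw [prod_gbar, mk_eq_iff]
    intro v hv
    rw [elt_apply, ← ev_apply]
    have h2 := lv_fix n hw (w := ev w v) (by rw [length_apply _ (ev_mem w), hv])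
    rw [Equiv.Perm.mul_apply, ← Equiv.Perm.mul_apply (ev w)⁻¹, inv_mul_cancel,
      Equiv.Perm.one_apply] at h2
    exact h2.symm
  have h3 : len n (g : Gn n) ≤ w.length := Nat.sInf_le ⟨w, rfl, h1⟩
  rw [← hq]
  exact le_trans (by exact_mod_cast h3) hwL

theorem D_pos {n : ℕ} (hn : 1 ≤ n) : 1 ≤ D n := by
  refine le_trans ?_ ((D_isGreatest n).2 ⟨gbar n a, rfl⟩)
  by_contra hcon
  have h0 : len n (gbar n a) = 0 := by omega
  unfold len at h0
  rw [Nat.sInf_eq_zero] at h0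
  rcases h0 with ⟨s, hs, hp⟩ | h0
  · rw [List.length_eq_zero_iff] at hs
    subst hs
    have h1 : ((1 : G) : Gn n) = ((⟨gen a, gen_mem a⟩ : G) : Gn n) := hp
    rw [mk_eq_iff] at h1
    obtain ⟨m, rfl⟩ : ∃ m, n = m + 1 := ⟨n - 1, by omega⟩
    have h2 := h1 (false :: List.replicate m false) (by simp)
    have h3 : (gA : P) (false :: List.replicate m false) = true :: List.replicate m false :=
      gA_apply _ _
    have h4 : (false :: List.replicate m false : List Bool) = true :: List.replicate m false :=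
      h2.trans h3
    simp at h4
  · have : (1 : ℕ) ∈ {k | ∃ s : List Gen, s.length = k ∧ (s.map (gbar n)).prod = gbar n a} :=
      ⟨[a], rfl, by simp⟩
    rw [h0] at this
    exact this

theorem exists_root : ∃ x : ℝ, 0 < x ∧ x ^ 3 = x ^ 2 + 2 * x + 4 := by
  have hc : ContinuousOn (fun x : ℝ => x ^ 3 - x ^ 2 - 2 * x - 4) (Set.Icc 2 3) := by fun_prop
  have h := intermediate_value_Icc (by norm_num : (2 : ℝ) ≤ 3) hc
  have h0 : (0 : ℝ) ∈ Set.Icc ((2 : ℝ) ^ 3 - 2 ^ 2 - 2 * 2 - 4) ((3 : ℝ) ^ 3 - 3 ^ 2 - 2 * 3 - 4) := by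
    constructor <;> norm_num
  obtain ⟨x, hx, hx0⟩ := h h0
  refine ⟨x, by linarith [hx.1], ?_⟩
  have hx0' : x ^ 3 - x ^ 2 - 2 * x - 4 = 0 := hx0
  linarith

private theorem root_gt_two (x : ℝ) (hx0 : 0 < x) (hx : x ^ 3 = x ^ 2 + 2 * x + 4) : 2 < x := by
  by_contra hcon
  push Not at hcon
  nlinarith [mul_nonneg hx0.le (sub_nonneg.2 hcon), mul_nonneg (mul_nonneg hx0.le hx0.le)
    (sub_nonneg.2 hcon)]

theorem root_unique (x y : ℝ) (hx0 : 0 < x) (hx : x ^ 3 = x ^ 2 + 2 * x + 4) (hy0 : 0 < y)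
    (hy : y ^ 3 = y ^ 2 + 2 * y + 4) : y = x := by
  have h1 := root_gt_two x hx0 hx
  have h2 := root_gt_two y hy0 hy
  have h3 : (y - x) * (y ^ 2 + x * y + x ^ 2 - x - y - 2) = 0 := by
    linear_combination hy - hx
  rcases mul_eq_zero.1 h3 with h4 | h4
  · linarith
  · nlinarith

theorem D_low (x : ℝ) (hx0 : 0 < x) (hx : x ^ 3 = x ^ 2 + 2 * x + 4) :
    ∃ c : ℝ, 0 < c ∧ ∀ n : ℕ, 1 ≤ n → c * x ^ n ≤ (D n : ℝ) := by
  obtain ⟨hb1, hb2⟩ := root_bounds x hx0 hx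
  have hx1 : 1 ≤ x := by linarith
  refine ⟨(x ^ 2)⁻¹, by positivity, ?_⟩
  intro n hn
  match n, hn with
  | 1, _ =>
    have h1 : (1 : ℝ) ≤ (D 1 : ℝ) := by exact_mod_cast D_pos le_rfl
    refine le_trans ?_ h1
    rw [inv_mul_le_iff₀ (by positivity), mul_one]
    exact pow_le_pow_right₀ hx1 (by norm_num)
  | 2, _ =>
    have h1 : (1 : ℝ) ≤ (D 2 : ℝ) := by exact_mod_cast D_pos (by norm_num)
    refine le_trans ?_ h1
    rw [inv_mul_le_iff₀ (by positivity), mul_one]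
  | k + 3, _ =>
    have h1 : (ell k : ℝ) ≤ (D (k + 3) : ℝ) := by exact_mod_cast ell_le_D k
    have h2 := ell_growth x hx0 hx k
    refine le_trans ?_ (h2.trans h1)
    rw [inv_mul_le_iff₀ (by positivity), pow_add]
    have h3 : 0 < x ^ k := by positivity
    have h4 : x ^ 3 ≤ x ^ 2 * 8 := by nlinarith [mul_pos hx0 hx0]
    calc x ^ k * x ^ 3 ≤ x ^ k * (x ^ 2 * 8) := mul_le_mul_of_nonneg_left h4 h3.le
      _ = x ^ 2 * (8 * x ^ k) := by ring

theorem D_up (x : ℝ) (hx0 : 0 < x) (hx : x ^ 3 = x ^ 2 + 2 * x + 4) :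
    ∃ C : ℝ, 0 < C ∧ ∀ n : ℕ, (D n : ℝ) ≤ C * x ^ n := by
  obtain ⟨C, hC, h⟩ := cov_all x hx0 hx
  exact ⟨C, hC, fun n => D_le_of_cov (h n)⟩

end Pool.Agent.Lib.Pb99418U
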