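import Pool.Agent.Lib.Pb99418U.Final
import Pool.Agent.Lib.Pb99418U.CardLow

/-!
# The growth of the Grigorchuk group

`ballG r` is the set of the elements of `G` of length at most `r`.  If `D n ≤ r` the map
`ballG r → Gn n` is surjective (`len n q ≤ D n ≤ r`, the infimum in `len` is attained by
`exists_word`, `prod_gbar`), so `2^(2^n) ≤ ncard (ballG r)` if `D (n + 2) ≤ r` (`card_Gn_ge`).
`ballG r` is finite: it is the image of the finite set of the words of length at most `r`.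

Let `α = log 2 / log x` (`0 < α < 1` as `2 < x`), and `D n ≤ C x^n` for all `n`, `C ≥ 1`.
For `r ≥ 1` with `r ≥ C x^2` let `n` be the largest with `C x^(n+2) ≤ r` (so `r < C x^(n+3)`);
`2^n = (x^n)^α > (r / (C x^3))^α = r^α (C x^3)^{-α}`, so
`ncard ≥ 2^(2^n) ≥ exp (log 2 · (C x^3)^{-α} r^α)`.  For `1 ≤ r < C x^2` we have
`ncard ≥ 2` (the elements `1` and `a`) and `r^α ≤ (C x^3)^α`, so
`exp (log 2 · (C x^3)^{-α} r^α) ≤ 2`.  So `c = log 2 · (C x^3)^{-α}` works for all `r ≥ 1`.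
-/

namespace Pool.Agent.Lib.Pb99418U

open Pool.Agent.Lib.Pb99418 Gen

/-- The elements of `G` of length at most `r`. -/
def ballG (r : ℕ) : Set Pool.Agent.Lib.Pb99418.G := {g | ∃ s : List Gen, s.length ≤ r ∧ elt s = g}

theorem ballG_finite (r : ℕ) : (ballG r).Finite := by
  have : Finite Gen := by
    refine Finite.of_surjective (fun i : Fin 4 => match i with
      | 0 => Gen.a
      | 1 => Gen.b
      | 2 => Gen.c
      | 3 => Gen.d) ?_
    intro g
    cases g
    · exact ⟨0, rfl⟩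
    · exact ⟨1, rfl⟩
    · exact ⟨2, rfl⟩
    · exact ⟨3, rfl⟩
  have h1 : ({s : List Gen | s.length ≤ r}).Finite := List.finite_length_le Gen r
  refine (h1.image elt).subset ?_
  rintro g ⟨s, hs, rfl⟩
  exact ⟨s, hs, rfl⟩

theorem card_le_ball {n r : ℕ} (h : D n ≤ r) : Nat.card (Gn n) ≤ (ballG r).ncard := by
  have hsurj : (fun g : Pool.Agent.Lib.Pb99418.G => (g : Gn n)) '' (ballG r) = Set.univ := by
    refine Set.eq_univ_of_forall fun q => ?_
    have hle : len n q ≤ D n := (D_isGreatest n).2 ⟨q, rfl⟩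
    have hne : {k | ∃ s : List Gen, s.length = k ∧ (s.map (gbar n)).prod = q}.Nonempty := by
      obtain ⟨g, rfl⟩ := QuotientGroup.mk_surjective q
      obtain ⟨s, hs⟩ := exists_word g
      refine ⟨s.length, s, rfl, ?_⟩
      rw [prod_gbar, mk_eq_iff]
      intro w _
      rw [elt_apply, hs w]
    obtain ⟨s, hs1, hs2⟩ := Nat.sInf_mem hne
    refine ⟨elt s, ⟨s, ?_, rfl⟩, ?_⟩
    · rw [hs1]
      exact hle.trans h
    · show ((elt s : Pool.Agent.Lib.Pb99418.G) : Gn n) = q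
      rw [← prod_gbar, hs2]
  have h1 := Set.ncard_image_le (f := fun g : Pool.Agent.Lib.Pb99418.G => (g : Gn n)) (ballG_finite r)
  rw [hsurj, Set.ncard_univ] at h1
  exact h1

namespace GrowthAux

theorem two_lt {x : ℝ} (hx0 : 0 < x) (hx : x ^ 3 = x ^ 2 + 2 * x + 4) : 2 < x := by
  by_contra h
  push Not at h
  nlinarith [mul_nonneg (mul_nonneg hx0.le hx0.le) (sub_nonneg.2 h), mul_nonneg hx0.le (sub_nonneg.2 h)]

theorem two_le_ball {r : ℕ} (hr : 1 ≤ r) : 2 ≤ (ballG r).ncard := by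
  have hne : elt [] ≠ elt [a] := by
    intro h
    have h1 := congrArg (fun g : Pool.Agent.Lib.Pb99418.G => (g : Equiv.Perm (List Bool)) [false]) h
    simp only [elt_apply] at h1
    simp [run] at h1
  have hsub : ({elt [], elt [a]} : Set Pool.Agent.Lib.Pb99418.G) ⊆ ballG r := by
    intro g hg
    rw [Set.mem_insert_iff, Set.mem_singleton_iff] at hg
    rcases hg with rfl | rfl
    · exact ⟨[], by simp, rfl⟩
    · exact ⟨[a], by simpa using hr, rfl⟩
  have h1 := Set.ncard_le_ncard hsub (ballG_finite r)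
  rwa [Set.ncard_pair hne] at h1

end GrowthAux

open GrowthAux

theorem growth (x : ℝ) (hx0 : 0 < x) (hx : x ^ 3 = x ^ 2 + 2 * x + 4) :
    ∃ c : ℝ, 0 < c ∧ ∀ r : ℕ, 1 ≤ r →
      Real.exp (c * (r : ℝ) ^ (Real.log 2 / Real.log x)) ≤ ((ballG r).ncard : ℝ) := by
  obtain ⟨C₀, hC₀, hD₀⟩ := D_up x hx0 hx
  set C : ℝ := max C₀ 1 with hCdef
  have hC1 : 1 ≤ C := le_max_right _ _
  have hC0 : 0 < C := by linarith
  have hD : ∀ n : ℕ, (D n : ℝ) ≤ C * x ^ n := fun n =>
    (hD₀ n).trans (mul_le_mul_of_nonneg_right (le_max_left _ _) (pow_nonneg hx0.le _))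
  have hx2 := two_lt hx0 hx
  have hx1 : 1 < x := by linarith
  have hlog2 : 0 < Real.log 2 := Real.log_pos (by norm_num)
  have hlogx : 0 < Real.log x := Real.log_pos hx1
  set α : ℝ := Real.log 2 / Real.log x with hα
  have hα0 : 0 < α := div_pos hlog2 hlogx
  have hxα : x ^ α = 2 := by
    rw [Real.rpow_def_of_pos hx0, hα, mul_div_cancel₀ _ hlogx.ne', Real.exp_log (by norm_num)]
  set B : ℝ := C * x ^ 3 with hB
  have hB0 : 0 < B := by positivity
  refine ⟨Real.log 2 * B ^ (-α), by positivity, ?_⟩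
  intro r hr
  have hr0 : (0 : ℝ) < r := by exact_mod_cast hr
  have key : Real.log 2 * B ^ (-α) * (r : ℝ) ^ α = Real.log 2 * ((r : ℝ) / B) ^ α := by
    rw [Real.div_rpow hr0.le hB0.le, Real.rpow_neg hB0.le, mul_assoc, div_eq_mul_inv]
    ring
  rw [key]
  rcases lt_or_ge (r : ℝ) (C * x ^ 2) with hlt | hge
  · have h1 : (r : ℝ) / B ≤ 1 := by
      rw [div_le_one hB0, hB]
      have h2 : C * x ^ 2 ≤ C * x ^ 3 :=
        mul_le_mul_of_nonneg_left (pow_le_pow_right₀ hx1.le (by norm_num)) hC0.le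
      linarith
    have h2 : ((r : ℝ) / B) ^ α ≤ 1 := Real.rpow_le_one (by positivity) h1 hα0.le
    have h3 : Real.exp (Real.log 2 * ((r : ℝ) / B) ^ α) ≤ 2 := by
      calc Real.exp (Real.log 2 * ((r : ℝ) / B) ^ α) ≤ Real.exp (Real.log 2 * 1) :=
            Real.exp_le_exp.2 (mul_le_mul_of_nonneg_left h2 hlog2.le)
        _ = 2 := by rw [mul_one, Real.exp_log (by norm_num)]
    have h4 : (2 : ℝ) ≤ ((ballG r).ncard : ℝ) := by exact_mod_cast two_le_ball hr
    exact h3.trans h4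
  · have h1 : 1 ≤ (r : ℝ) / (C * x ^ 2) := by
      rw [one_le_div (by positivity)]
      exact hge
    obtain ⟨n, hn1, hn2⟩ := exists_nat_pow_near h1 hx1
    rw [le_div_iff₀ (by positivity)] at hn1
    rw [div_lt_iff₀ (by positivity)] at hn2
    have h2 : D (n + 2) ≤ r := by
      have h3 : (D (n + 2) : ℝ) ≤ r := by
        calc (D (n + 2) : ℝ) ≤ C * x ^ (n + 2) := hD _
          _ = x ^ n * (C * x ^ 2) := by ring
          _ ≤ r := hn1
      exact_mod_cast h3
    have h3 : (r : ℝ) / B ≤ x ^ n := by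
      rw [div_le_iff₀ hB0, hB]
      calc (r : ℝ) ≤ x ^ (n + 1) * (C * x ^ 2) := hn2.le
        _ = x ^ n * (C * x ^ 3) := by ring
    have h4 : ((r : ℝ) / B) ^ α ≤ 2 ^ n := by
      calc ((r : ℝ) / B) ^ α ≤ (x ^ n) ^ α := Real.rpow_le_rpow (by positivity) h3 hα0.le
        _ = (x ^ α) ^ n := by
            rw [← Real.rpow_natCast, ← Real.rpow_mul hx0.le, mul_comm, Real.rpow_mul hx0.le,
              Real.rpow_natCast]
        _ = 2 ^ n := by rw [hxα]
    have h5 : Real.exp (Real.log 2 * ((r : ℝ) / B) ^ α) ≤ ((2 ^ (2 ^ n) : ℕ) : ℝ) := by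
      calc Real.exp (Real.log 2 * ((r : ℝ) / B) ^ α) ≤ Real.exp (Real.log 2 * 2 ^ n) :=
            Real.exp_le_exp.2 (mul_le_mul_of_nonneg_left h4 hlog2.le)
        _ = ((2 ^ (2 ^ n) : ℕ) : ℝ) := by
            have e : Real.log 2 * 2 ^ n = Real.log 2 * ((2 ^ n : ℕ) : ℝ) := by push_cast; rfl
            rw [e, Real.exp_mul, Real.exp_log (by norm_num), Real.rpow_natCast]
            push_cast
            rfl
    have h6 : ((2 ^ (2 ^ n) : ℕ) : ℝ) ≤ ((ballG r).ncard : ℝ) := by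
      exact_mod_cast (card_Gn_ge n).trans (card_le_ball h2)
    exact h5.trans h6

end Pool.Agent.Lib.Pb99418U
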