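import Pool.Agent.Lib.Pb99418U.Basic

/-!
# The subgroup `K`

Proofs.  `G = {ev w}`; `G` is generated by the four involutions `gen a, …, gen d` (`exists_ev`).

* `K_le_G`, `K_conj`, `tt_mem_K`: immediate from the definition of `K` (closure induction).
* `tt_eq`: `(a b a) b = (c, a)(a, c) = (ca, ac)` by `gB_eq` and `gA_pr_gA`.
* `G_dec`: induction on a word (`exists_ev`): `a · pr f h = pr h f · a` (`gA_pr`), and
  `b = pr a c`, `c = pr a d`, `d = pr 1 b`.
* `fst_surj`: for every `f ∈ G` there is `h ∈ G` with `pr f h ∈ G`: the four elements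
  `b = (a, c)`, `aba = (c, a)`, `aca = (d, a)`, `ada = (b, 1)` are in `G`; induct on a word for `f`.
* `lift_conj`: by `G_dec`; `a (p, q) a = (q, p)`.
* `lift_K_le`: `(t⁻¹, 1) = (ad) t (ad)⁻¹ · t ∈ K`, where `t = tt` (compute both sides as pairs of
  pairs using `tt_eq`, `gD_eq`; `(ad) t (da) = a (ca, b a c b) a = (b a c b, c a)` and
  `t = (ca, ac)`, the product is `(bacbca, 1)` and `b a c b c a = b a (c b c) a = b a b a = t⁻¹`).
  So `(t, 1) ∈ K`; conjugating with `pr f h ∈ G` (`fst_surj`) gives `(f t f⁻¹, 1) ∈ K` for all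
  `f ∈ G`, so `(k, 1) ∈ K` for all `k ∈ K` (closure induction), and `(1, k) = a (k, 1) a ∈ K`.
* `K_le_lift_G`: `t = (ca, ac) ∈ lift G` and `lift G` is normalised by `G` (`lift_conj`).
* `conj_tt`: the set of the `g ∈ G` for which the claim holds is closed under left multiplication
  by generators since `lift K` is normalised by `G` (and `t⁻¹` may be replaced for `t`):
  `a t a = t⁻¹`, `b t b = t⁻¹`, `d t d = (1, t⁻¹) t` (from the identity above, or
  `(1, b)(ca, ac)(1, b) = (ca, bacb)` and `bacb = t⁻¹ (ac)` as `b a c b = b a b · b c b = bab c`),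
  `c = b d`.
* `K_dec`: the set of the `x` with `x · t^{-e} ∈ lift K` for some `e < 4` contains the generators of
  `K` by `conj_tt` (note `t⁻¹ ≡ t^3` by `tt_pow4`) and is a group since `t` normalises `lift K`
  and `t^4 ∈ lift K`.
* `tt_pow4`: `t^4 = ((ca)^4, (ac)^4)`, and `(ac)^4` is the inverse of `(ca)^4`.  With `c = b d`:
  `(ca)^2 = (b d) t (b d)⁻¹ · (d a)^2` since `a b = t b a`, and `(da)^4 = 1`, so
  `(ca)^4 = t^{bd} · (da)^2 t^{bd} (da)^{-2} ∈ K` where `t^g = g t g⁻¹`.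
-/

namespace Pool.Agent.Lib.Pb99418U

open Pool.Agent.Lib.Pb99418 Gen

namespace KFactsAux

theorem tt_mem_G : tt ∈ G :=
  G.mul_mem (G.mul_mem (G.mul_mem (gen_mem _) (gen_mem _)) (gen_mem _)) (gen_mem _)

end KFactsAux

open KFactsAux

theorem K_le_G : K ≤ G := by
  rw [K, Subgroup.closure_le]
  rintro x ⟨g, hg, rfl⟩
  exact G.mul_mem (G.mul_mem hg tt_mem_G) (G.inv_mem hg)

theorem K_conj {g k : P} (hg : g ∈ G) (hk : k ∈ K) : g * k * g⁻¹ ∈ K := by
  induction hk using Subgroup.closure_induction with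
  | mem x hx =>
    obtain ⟨h, hh, rfl⟩ := hx
    refine Subgroup.subset_closure ⟨g * h, G.mul_mem hg hh, by group⟩
  | one => simpa using K.one_mem
  | mul x y _ _ hx hy =>
    have : g * (x * y) * g⁻¹ = (g * x * g⁻¹) * (g * y * g⁻¹) := by group
    rw [this]; exact K.mul_mem hx hy
  | inv x _ hx =>
    have : g * x⁻¹ * g⁻¹ = (g * x * g⁻¹)⁻¹ := by group
    rw [this]; exact K.inv_mem hx

theorem tt_mem_K : tt ∈ K := Subgroup.subset_closure ⟨1, G.one_mem, by simp⟩

theorem tt_eq : tt = pr (gC * gA) (gA * gC) := by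
  show gA * gB * gA * gB = _
  rw [gB_eq, gA_pr_gA, pr_mul]

theorem G_dec {g : P} (hg : g ∈ G) : ∃ f ∈ G, ∃ h ∈ G, g = pr f h ∨ g = pr f h * gA := by
  obtain ⟨w, rfl⟩ := exists_ev hg
  clear hg
  induction w with
  | nil => exact ⟨1, G.one_mem, 1, G.one_mem, Or.inl (by simp)⟩
  | cons x w ih =>
    obtain ⟨f, hf, h, hh, e⟩ := ih
    have key : ∀ u v : P, u ∈ G → v ∈ G → gen x = pr u v → ∃ f ∈ G, ∃ h ∈ G,
        ev (x :: w) = pr f h ∨ ev (x :: w) = pr f h * gA := by
      intro u v hu hv hx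
      refine ⟨u * f, G.mul_mem hu hf, v * h, G.mul_mem hv hh, ?_⟩
      rw [ev_cons, hx]
      rcases e with e | e
      · left; rw [e, pr_mul]
      · right; rw [e, ← mul_assoc, pr_mul]
    cases x with
    | a =>
      refine ⟨h, hh, f, hf, ?_⟩
      rw [ev_cons]
      rcases e with e | e
      · right; rw [e, gA_pr]
      · left; rw [e, ← mul_assoc, gA_pr_gA]
    | b => exact key _ _ (gen_mem _) (gen_mem _) gB_eq
    | c => exact key _ _ (gen_mem _) (gen_mem _) gC_eq
    | d => exact key _ _ G.one_mem (gen_mem _) gD_eq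

theorem lift_conj {N : Subgroup P} (hN : ∀ g ∈ G, ∀ n ∈ N, g * n * g⁻¹ ∈ N) :
    ∀ g ∈ G, ∀ n ∈ lift N, g * n * g⁻¹ ∈ lift N := by
  rintro g hg n ⟨p, hp, q, hq, rfl⟩
  obtain ⟨f, hf, h, hh, e⟩ := G_dec hg
  rcases e with rfl | rfl
  · rw [pr_inv, pr_mul, pr_mul]
    exact ⟨_, hN f hf p hp, _, hN h hh q hq, rfl⟩
  · have : pr f h * gA * pr p q * (pr f h * gA)⁻¹ = pr (f * q * f⁻¹) (h * p * h⁻¹) := by
      rw [mul_inv_rev, gen_inv, pr_inv]
      calc pr f h * gA * pr p q * (gA * pr f⁻¹ h⁻¹)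
          = pr f h * (gA * pr p q * gA) * pr f⁻¹ h⁻¹ := by group
        _ = _ := by rw [gA_pr_gA, pr_mul, pr_mul]
    rw [this]
    exact ⟨_, hN f hf q hq, _, hN h hh p hp, rfl⟩

theorem fst_surj {f : P} (hf : f ∈ G) : ∃ h ∈ G, pr f h ∈ G := by
  obtain ⟨w, rfl⟩ := exists_ev hf
  clear hf
  induction w with
  | nil => exact ⟨1, G.one_mem, by simpa using G.one_mem⟩
  | cons x w ih =>
    obtain ⟨h, hh, hw⟩ := ih
    have key : ∀ v : P, v ∈ G → pr (gen x) v ∈ G → ∃ h ∈ G, pr (ev (x :: w)) h ∈ G := by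
      intro v hv hx
      refine ⟨v * h, G.mul_mem hv hh, ?_⟩
      rw [ev_cons, ← pr_mul]
      exact G.mul_mem hx hw
    have conjA : ∀ u v : P, pr u v ∈ G → pr v u ∈ G := by
      intro u v huv
      rw [← gA_pr_gA]
      exact G.mul_mem (G.mul_mem (gen_mem _) huv) (gen_mem _)
    cases x with
    | a => exact key gC (gen_mem _) (by rw [← gB_eq]; exact gen_mem _)
    | b => exact key 1 G.one_mem (conjA _ _ (by rw [← gD_eq]; exact gen_mem _))
    | c => exact key gA (gen_mem _) (conjA _ _ (by rw [← gB_eq]; exact gen_mem _))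
    | d => exact key gA (gen_mem _) (conjA _ _ (by rw [← gC_eq]; exact gen_mem _))

namespace KFactsAux

theorem ttinv_pr : pr tt⁻¹ 1 = (gA * gD) * tt * (gA * gD)⁻¹ * tt := by
  have h1 : gD * tt * gD = pr (gC * gA) (gB * gA * gC * gB) := by
    rw [tt_eq, gD_eq, pr_mul, pr_mul]
    simp [mul_assoc]
  have h2 : (gA * gD) * tt * (gA * gD)⁻¹ = pr (gB * gA * gC * gB) (gC * gA) := by
    rw [mul_inv_rev, gen_inv, gen_inv]
    calc gA * gD * tt * (gD * gA) = gA * (gD * tt * gD) * gA := by group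
      _ = _ := by rw [h1, gA_pr_gA]
  rw [h2, tt_eq, pr_mul]
  congr 1
  · have : tt⁻¹ = gB * gA * gB * gA := by
      show (gA * gB * gA * gB)⁻¹ = _
      simp only [mul_inv_rev, gen_inv]
      group
    rw [← tt_eq, this]
    have e : gC * gB * gC = gB := by rw [gC_gB, gD_gC]
    calc gB * gA * gB * gA = gB * gA * (gC * gB * gC) * gA := by rw [e]
      _ = _ := by group
  · have : gC * gA * (gA * gC) = gC * (gA * gA) * gC := by group
    rw [this, gen_mul_self, mul_one, gen_mul_self]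

theorem tt_inv_eq : tt⁻¹ = gB * gA * gB * gA := by
  show (gA * gB * gA * gB)⁻¹ = _
  simp only [mul_inv_rev, gen_inv]
  group

theorem tt_pr : pr tt 1 ∈ K := by
  have h : pr tt⁻¹ 1 ∈ K := by
    rw [ttinv_pr]
    exact K.mul_mem (K_conj (G.mul_mem (gen_mem _) (gen_mem _)) tt_mem_K) tt_mem_K
  have := K.inv_mem h
  simpa using this

theorem pr_left {k : P} (hk : k ∈ K) : pr k 1 ∈ K := by
  induction hk using Subgroup.closure_induction with
  | mem x hx =>
    obtain ⟨f, hf, rfl⟩ := hx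
    obtain ⟨h, hh, hp⟩ := fst_surj hf
    have : pr (f * tt * f⁻¹) 1 = pr f h * pr tt 1 * (pr f h)⁻¹ := by simp
    rw [this]
    exact K_conj hp tt_pr
  | one => simpa using K.one_mem
  | mul x y _ _ hx hy =>
    have : pr (x * y) 1 = pr x 1 * pr y 1 := by simp
    rw [this]; exact K.mul_mem hx hy
  | inv x _ hx =>
    have : pr x⁻¹ 1 = (pr x 1)⁻¹ := by simp
    rw [this]; exact K.inv_mem hx

theorem pr_right {k : P} (hk : k ∈ K) : pr 1 k ∈ K := by
  have := K_conj (gen_mem a) (pr_left hk)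
  rwa [gen_inv, gA_pr_gA] at this

end KFactsAux

theorem lift_K_le : lift K ≤ K := by
  rintro x ⟨f, hf, g, hg, rfl⟩
  have : pr f g = pr f 1 * pr 1 g := by simp
  rw [this]
  exact K.mul_mem (pr_left hf) (pr_right hg)

theorem K_le_lift_G : K ≤ lift G := by
  rw [K, Subgroup.closure_le]
  rintro x ⟨g, hg, rfl⟩
  refine lift_conj (fun g hg n hn => G.mul_mem (G.mul_mem hg hn) (G.inv_mem hg)) g hg tt ?_
  rw [tt_eq]
  exact ⟨_, G.mul_mem (gen_mem _) (gen_mem _), _, G.mul_mem (gen_mem _) (gen_mem _), rfl⟩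

namespace KFactsAux

theorem ca4 : (gC * gA) ^ 4 ∈ K := by
  have hda : (gD * gA) ^ 4 = 1 := by
    have h := ad4
    have : (gD * gA) ^ 4 = gA * (gA * gD) ^ 4 * gA := by
      have e : gA * (gA * gD) ^ 4 * gA = (gA * gA) * gD * (gA * gD) ^ 3 * gA := by
        simp only [pow_succ, pow_zero, one_mul]; group
      rw [e, gen_mul_self, one_mul]
      simp only [pow_succ, pow_zero, one_mul]; group
    rw [this, h, mul_one, gen_mul_self]
  -- a b = t b a
  have hab : gA * gB = tt * gB * gA := by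
    show gA * gB = gA * gB * gA * gB * gB * gA
    have : gA * gB * gA * gB * gB * gA = gA * gB * gA * (gB * gB) * gA := by group
    rw [this, gen_mul_self, mul_one, mul_assoc (gA * gB), gen_mul_self, mul_one]
  have hdbd : gB * gD * gB = gD := by rw [gB_gD, gC_gB]
  have h2 : (gC * gA) ^ 2 = (gB * gD) * tt * (gB * gD)⁻¹ * (gD * gA) ^ 2 := by
    rw [← gB_gD]
    calc (gB * gD * gA) ^ 2 = gB * gD * (gA * gB) * gD * gA := by
          simp only [pow_succ, pow_zero, one_mul]; group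
      _ = gB * gD * (tt * gB * gA) * gD * gA := by rw [hab]
      _ = (gB * gD) * tt * (gB * gD)⁻¹ * (gB * gD * gB) * (gA * gD * gA) := by group
      _ = (gB * gD) * tt * (gB * gD)⁻¹ * (gD * gA) ^ 2 := by
          rw [hdbd]; simp only [pow_succ, pow_zero, one_mul]; group
  have hk : (gB * gD) * tt * (gB * gD)⁻¹ ∈ K :=
    K_conj (G.mul_mem (gen_mem _) (gen_mem _)) tt_mem_K
  set k := (gB * gD) * tt * (gB * gD)⁻¹ with hkdef
  have h4 : (gC * gA) ^ 4 = k * ((gD * gA) ^ 2 * k * ((gD * gA) ^ 2)⁻¹) * (gD * gA) ^ 4 := by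
    have : (gC * gA) ^ 4 = ((gC * gA) ^ 2) ^ 2 := by rw [← pow_mul]
    rw [this, h2, pow_two (k * (gD * gA) ^ 2)]
    group
  rw [h4, hda, mul_one]
  exact K.mul_mem hk (K_conj (G.pow_mem (G.mul_mem (gen_mem _) (gen_mem _)) 2) hk)

end KFactsAux

theorem tt_pow4 : tt ^ 4 ∈ lift K := by
  rw [tt_eq, pr_pow]
  refine ⟨_, ca4, _, ?_, rfl⟩
  have : (gA * gC) ^ 4 = ((gC * gA) ^ 4)⁻¹ := by
    rw [← inv_pow, mul_inv_rev, gen_inv, gen_inv]
  rw [this]
  exact K.inv_mem ca4

namespace KFactsAux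

theorem lK_conj {g n : P} (hg : g ∈ G) (hn : n ∈ lift K) : g * n * g⁻¹ ∈ lift K :=
  lift_conj (fun _ hg _ hk => K_conj hg hk) g hg n hn

/-- `x ≡ y` modulo `lift K`, for the conjugates of `tt`. -/
theorem conj_gen (x : Gen) : gen x * tt * (gen x)⁻¹ * tt⁻¹ ∈ lift K ∨
    gen x * tt * (gen x)⁻¹ * tt ∈ lift K := by
  have hd : gD * tt * gD = pr 1 tt⁻¹ * tt := by
    have h := ttinv_pr
    have h' : gA * pr tt⁻¹ 1 * gA = gD * tt * gD * (gA * tt * gA) := by
      rw [h, mul_inv_rev, gen_inv, gen_inv]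
      calc gA * (gA * gD * tt * (gD * gA) * tt) * gA
          = (gA * gA) * gD * tt * gD * (gA * tt * gA) := by group
        _ = _ := by rw [gen_mul_self, one_mul]
    rw [gA_pr_gA] at h'
    have hta : gA * tt * gA = tt⁻¹ := by
      rw [tt_inv_eq]
      show gA * (gA * gB * gA * gB) * gA = _
      calc gA * (gA * gB * gA * gB) * gA = (gA * gA) * gB * gA * gB * gA := by group
        _ = _ := by rw [gen_mul_self, one_mul]
    rw [hta] at h'
    rw [h']
    group
  cases x with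
  | a =>
    right
    rw [gen_inv]
    have : gA * tt * gA * tt = 1 := by
      have hta : gA * tt * gA = tt⁻¹ := by
        rw [tt_inv_eq]
        show gA * (gA * gB * gA * gB) * gA = _
        calc gA * (gA * gB * gA * gB) * gA = (gA * gA) * gB * gA * gB * gA := by group
          _ = _ := by rw [gen_mul_self, one_mul]
      rw [hta, inv_mul_cancel]
    rw [this]; exact (lift K).one_mem
  | b =>
    right
    rw [gen_inv]
    have : gB * tt * gB * tt = 1 := by
      have htb : gB * tt * gB = tt⁻¹ := by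
        rw [tt_inv_eq]
        show gB * (gA * gB * gA * gB) * gB = _
        calc gB * (gA * gB * gA * gB) * gB = gB * gA * gB * gA * (gB * gB) := by group
          _ = _ := by rw [gen_mul_self, mul_one]
      rw [htb, inv_mul_cancel]
    rw [this]; exact (lift K).one_mem
  | c =>
    right
    rw [gen_inv]
    have htb : gB * tt * gB = tt⁻¹ := by
      rw [tt_inv_eq]
      show gB * (gA * gB * gA * gB) * gB = _
      calc gB * (gA * gB * gA * gB) * gB = gB * gA * gB * gA * (gB * gB) := by group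
        _ = _ := by rw [gen_mul_self, mul_one]
    have : gC * tt * gC * tt = gB * pr 1 tt⁻¹ * gB⁻¹ := by
      rw [gen_inv]
      calc gC * tt * gC * tt = (gB * gD) * tt * (gD * gB) * tt := by rw [gB_gD, gD_gB]
        _ = gB * (gD * tt * gD) * gB * tt := by group
        _ = gB * (pr 1 tt⁻¹ * tt) * gB * tt := by rw [hd]
        _ = gB * pr 1 tt⁻¹ * (gB * gB) * tt * gB * tt := by rw [gen_mul_self]; group
        _ = gB * pr 1 tt⁻¹ * gB * (gB * tt * gB) * tt := by group
        _ = _ := by rw [htb]; group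
    rw [this]
    exact lK_conj (gen_mem _) ⟨1, K.one_mem, _, K.inv_mem tt_mem_K, rfl⟩
  | d =>
    left
    rw [gen_inv]
    have : gD * tt * gD * tt⁻¹ = pr 1 tt⁻¹ := by rw [hd]; group
    rw [this]
    exact ⟨1, K.one_mem, _, K.inv_mem tt_mem_K, rfl⟩

end KFactsAux

theorem conj_tt {g : P} (hg : g ∈ G) :
    g * tt * g⁻¹ * tt⁻¹ ∈ lift K ∨ g * tt * g⁻¹ * tt ∈ lift K := by
  obtain ⟨w, rfl⟩ := exists_ev hg
  clear hg
  induction w with
  | nil => left; simpa using (lift K).one_mem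
  | cons x w ih =>
    -- general step
    have hx := conj_gen x
    rw [ev_cons]
    rcases ih with h | h
    · -- g t g⁻¹ = m t
      set m := ev w * tt * (ev w)⁻¹ * tt⁻¹ with hm
      have e : ev w * tt * (ev w)⁻¹ = m * tt := by rw [hm]; group
      have hm' := lK_conj (gen_mem x) h
      rcases hx with hx | hx
      · left
        have : gen x * ev w * tt * (gen x * ev w)⁻¹ * tt⁻¹ =
            (gen x * m * (gen x)⁻¹) * (gen x * tt * (gen x)⁻¹ * tt⁻¹) := by
          calc gen x * ev w * tt * (gen x * ev w)⁻¹ * tt⁻¹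
              = gen x * (ev w * tt * (ev w)⁻¹) * (gen x)⁻¹ * tt⁻¹ := by group
            _ = _ := by rw [e]; group
        rw [this]; exact (lift K).mul_mem hm' hx
      · right
        have : gen x * ev w * tt * (gen x * ev w)⁻¹ * tt =
            (gen x * m * (gen x)⁻¹) * (gen x * tt * (gen x)⁻¹ * tt) := by
          calc gen x * ev w * tt * (gen x * ev w)⁻¹ * tt
              = gen x * (ev w * tt * (ev w)⁻¹) * (gen x)⁻¹ * tt := by group
            _ = _ := by rw [e]; group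
        rw [this]; exact (lift K).mul_mem hm' hx
    · set m := ev w * tt * (ev w)⁻¹ * tt with hm
      have e : ev w * tt * (ev w)⁻¹ = m * tt⁻¹ := by rw [hm]; group
      have hm' := lK_conj (gen_mem x) h
      rcases hx with hx | hx
      · -- x t x⁻¹ = n t ; inverse
        right
        set n := gen x * tt * (gen x)⁻¹ * tt⁻¹ with hn
        have e2 : gen x * tt⁻¹ * (gen x)⁻¹ * tt = tt⁻¹ * n⁻¹ * tt⁻¹⁻¹ := by
          rw [hn]; group
        have h2 : gen x * tt⁻¹ * (gen x)⁻¹ * tt ∈ lift K := by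
          rw [e2]; exact lK_conj (G.inv_mem tt_mem_G) ((lift K).inv_mem hx)
        have : gen x * ev w * tt * (gen x * ev w)⁻¹ * tt =
            (gen x * m * (gen x)⁻¹) * (gen x * tt⁻¹ * (gen x)⁻¹ * tt) := by
          calc gen x * ev w * tt * (gen x * ev w)⁻¹ * tt
              = gen x * (ev w * tt * (ev w)⁻¹) * (gen x)⁻¹ * tt := by group
            _ = _ := by rw [e]; group
        rw [this]; exact (lift K).mul_mem hm' h2
      · left
        set n := gen x * tt * (gen x)⁻¹ * tt with hn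
        have e2 : gen x * tt⁻¹ * (gen x)⁻¹ * tt⁻¹ = tt * n⁻¹ * tt⁻¹ := by
          rw [hn]; group
        have h2 : gen x * tt⁻¹ * (gen x)⁻¹ * tt⁻¹ ∈ lift K := by
          rw [e2]; exact lK_conj tt_mem_G ((lift K).inv_mem hx)
        have : gen x * ev w * tt * (gen x * ev w)⁻¹ * tt⁻¹ =
            (gen x * m * (gen x)⁻¹) * (gen x * tt⁻¹ * (gen x)⁻¹ * tt⁻¹) := by
          calc gen x * ev w * tt * (gen x * ev w)⁻¹ * tt⁻¹
              = gen x * (ev w * tt * (ev w)⁻¹) * (gen x)⁻¹ * tt⁻¹ := by group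
            _ = _ := by rw [e]; group
        rw [this]; exact (lift K).mul_mem hm' h2

namespace KFactsAux

/-- Elements of the form `m t^z`, `z` an integer. -/
theorem K_decZ {k : P} (hk : k ∈ K) : ∃ z : ℤ, k * (tt ^ z)⁻¹ ∈ lift K := by
  have hconj : ∀ (z : ℤ) {n : P}, n ∈ lift K → tt ^ z * n * (tt ^ z)⁻¹ ∈ lift K := fun z n hn =>
    lK_conj (G.zpow_mem tt_mem_G z) hn
  induction hk using Subgroup.closure_induction with
  | mem x hx =>
    obtain ⟨g, hg, rfl⟩ := hx
    rcases conj_tt hg with h | h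
    · exact ⟨1, by simpa using h⟩
    · exact ⟨-1, by simpa using h⟩
  | one => exact ⟨0, by simpa using (lift K).one_mem⟩
  | mul x y _ _ hx hy =>
    obtain ⟨z, hz⟩ := hx
    obtain ⟨z', hz'⟩ := hy
    refine ⟨z + z', ?_⟩
    have : x * y * (tt ^ (z + z'))⁻¹ = (x * (tt ^ z)⁻¹) * (tt ^ z * (y * (tt ^ z')⁻¹) * (tt ^ z)⁻¹) := by
      rw [zpow_add]; group
    rw [this]
    exact (lift K).mul_mem hz (hconj z hz')
  | inv x _ hx =>
    obtain ⟨z, hz⟩ := hx
    refine ⟨-z, ?_⟩
    have : x⁻¹ * (tt ^ (-z))⁻¹ = tt ^ (-z) * (x * (tt ^ z)⁻¹)⁻¹ * (tt ^ (-z))⁻¹ := by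
      group
    rw [this]
    exact hconj (-z) ((lift K).inv_mem hz)

end KFactsAux

theorem K_dec {k : P} (hk : k ∈ K) : ∃ e : ℕ, e < 4 ∧ k * (tt ^ e)⁻¹ ∈ lift K := by
  obtain ⟨z, hz⟩ := K_decZ hk
  have h4 : (0 : ℤ) < 4 := by norm_num
  have h0 : 0 ≤ z % 4 := Int.emod_nonneg z (by norm_num)
  have h1 : z % 4 < 4 := Int.emod_lt_of_pos z h4
  obtain ⟨e, he⟩ := Int.eq_ofNat_of_zero_le h0
  refine ⟨e, by omega, ?_⟩
  have hz2 : z = 4 * (z / 4) + e := by
    have := Int.mul_ediv_add_emod z 4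
    omega
  have hp : (tt ^ (4 : ℤ)) ∈ lift K := by
    have := tt_pow4
    exact_mod_cast this
  have : k * (tt ^ e)⁻¹ = (k * (tt ^ z)⁻¹) * ((tt ^ (4 : ℤ)) ^ (z / 4)) := by
    rw [← zpow_mul, ← zpow_natCast tt e, mul_assoc]
    congr 1
    rw [← zpow_neg, ← zpow_neg, ← zpow_add]
    congr 1
    omega
  rw [this]
  exact (lift K).mul_mem hz ((lift K).zpow_mem hp _)

end Pool.Agent.Lib.Pb99418U
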