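import Pool.Agent.Lib.Pb99418U.Fill
import Pool.Agent.Lib.Pb99418U.Chain

/-!
# The main recursion

* `fill_chain`: for a chain of `m` stages from `N` to `N''` there is a constant `c ≥ 0` such that
  for all `j` and all `L` with `Cov i (L i)` for `i < j` every `r ∈ lv j N` is congruent modulo
  `lv j N''` to a word of length at most `4 m ∑_{i < j} L i + c x^j`: induction on the chain; the
  empty word for `Ch.nil`; for `Ch.cons` first `fill` gives `u` with `r (ev u)⁻¹ ∈ lv j N'`, then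
  the induction hypothesis gives `u'` for `r (ev u)⁻¹`; the word is `u' ++ u` and the constant is
  `c + 200 (V w + 1)`.
* `cov_step`: let `g ∈ G`, `Cov i (L i)` for all `i ≤ j`; take `u` of length at most `L j` with
  `g (ev u)⁻¹ ∈ lv j K` and use `fill_chain` for the chain `ch_K k` and `r = g (ev u)⁻¹`:
  `r (ev u')⁻¹ ∈ lv j (lv k K) = lv (j + k) K` (`lv_add`); the word is `u' ++ u`.
-/

namespace Pool.Agent.Lib.Pb99418U

open Pool.Agent.Lib.Pb99418 Gen

theorem fill_chain (x : ℝ) (hx : x ^ 3 = x ^ 2 + 2 * x + 4) (hx1 : 2.46 ≤ x) (hx2 : x ≤ 5 / 2)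
    {m : ℕ} {N N' : Subgroup P} (hc : Ch m N N') :
    ∃ c : ℝ, 0 ≤ c ∧ ∀ (j : ℕ) (L : ℕ → ℝ), (∀ i < j, Cov i (L i)) → ∀ r ∈ lv j N,
      ∃ u : List Gen, (u.length : ℝ) ≤ 4 * m * ∑ i ∈ Finset.range j, L i + c * x ^ j ∧
        r * (ev u)⁻¹ ∈ lv j N' := by
  induction hc with
  | nil N =>
    refine ⟨0, le_refl _, fun j L _ r hr => ⟨[], ?_, ?_⟩⟩
    · simp
    · simpa using hr
  | @cons m N N' N'' w hs hw h ih =>
    obtain ⟨c, hc0, hc⟩ := ih
    have hV : 0 ≤ V w := by unfold V; positivity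
    refine ⟨c + 200 * (V w + 1), by positivity, fun j L hL r hr => ?_⟩
    obtain ⟨u, hu, hur⟩ := fill x hx hx1 hx2 j N N' w hs hw L hL r hr
    obtain ⟨u', hu', hur'⟩ := hc j L hL _ hur
    refine ⟨u' ++ u, ?_, ?_⟩
    · rw [List.length_append]
      push_cast
      calc (u'.length : ℝ) + u.length ≤ (4 * m * ∑ i ∈ Finset.range j, L i + c * x ^ j) +
            (4 * ∑ i ∈ Finset.range j, L i + 200 * (V w + 1) * x ^ j) := add_le_add hu' hu
        _ = _ := by ring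
    · rw [ev_append, mul_inv_rev, ← mul_assoc]
      exact hur'

theorem cov_step (x : ℝ) (hx : x ^ 3 = x ^ 2 + 2 * x + 4) (hx1 : 2.46 ≤ x) (hx2 : x ≤ 5 / 2)
    (k : ℕ) : ∃ c : ℝ, 0 ≤ c ∧ ∀ (j : ℕ) (L : ℕ → ℝ), (∀ i ≤ j, Cov i (L i)) →
      Cov (j + k) (L j + 8 * (2 ^ k - 1) * ∑ i ∈ Finset.range j, L i + c * x ^ j) := by
  obtain ⟨c, hc0, hc⟩ := fill_chain x hx hx1 hx2 (ch_K k)
  refine ⟨c, hc0, fun j L hL g hg => ?_⟩
  obtain ⟨u, hu, hgu⟩ := hL j le_rfl g hg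
  obtain ⟨u', hu', hgu'⟩ := hc j L (fun i hi => hL i hi.le) _ hgu
  refine ⟨u' ++ u, ?_, ?_⟩
  · rw [List.length_append]
    have hk : ((2 * (2 ^ k - 1) : ℕ) : ℝ) = 2 * (2 ^ k - 1) := by
      rw [Nat.cast_mul, Nat.cast_sub Nat.one_le_two_pow]
      push_cast
      ring
    rw [hk] at hu'
    push_cast
    calc (u'.length : ℝ) + u.length ≤
          (4 * (2 * (2 ^ k - 1)) * ∑ i ∈ Finset.range j, L i + c * x ^ j) + L j :=
          add_le_add hu' hu
      _ = _ := by ring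
  · rw [ev_append, mul_inv_rev, ← mul_assoc, lv_add]
    exact hgu'

end Pool.Agent.Lib.Pb99418U
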