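import Pool.Agent.Lib.Pb99418U.MainRec
import Pool.Agent.Lib.Pb99418U.CovZero
import Pool.Agent.Lib.Pb99418U.LvG

/-!
# `Cov n (C x^n)` for all `n`

* `cov_some`: for every `n` there is `L` with `Cov n L`: strong induction; `n = 0` is `cov_zero`,
  `n + 1` is `cov_step` with `k = 1`, `j = n` (choose `L i` for `i ≤ n`).
* `root_bounds`: a real `x > 0` with `x^3 = x^2 + 2 x + 4` satisfies `2.46 ≤ x ≤ 5/2`.
* `cov_all`: let `c` be the constant of `cov_step` for `k = 9` and let `C > 0` be so large that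
  `Cov i (C x^i)` for `i < 9` (`cov_some`, `Cov.mono`; `x ≥ 1`) and
  `c ≤ C (x^9 - 1 - 8 · 511 / 1.46)`, where `x^9 ≥ 2.46^9 > 3299` and `1 + 8 · 511 / 1.46 < 2801`,
  so `C ≥ c / 400` is enough.  Strong induction: for `n = j + 9` use `L i = C x^i`, `i ≤ j`, and
  `∑_{i < j} x^i = (x^j - 1)/(x - 1) ≤ x^j / 1.46`:
  `C x^j + 8 · 511 · C x^j / 1.46 + c x^j ≤ C x^{j + 9}`.
  (`8 (2^9 - 1) = 4088`.)
-/

namespace Pool.Agent.Lib.Pb99418U

open Pool.Agent.Lib.Pb99418 Gen

theorem root_bounds (x : ℝ) (hx0 : 0 < x) (hx : x ^ 3 = x ^ 2 + 2 * x + 4) :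
    2.46 ≤ x ∧ x ≤ 5 / 2 := by
  constructor
  · by_contra h
    push Not at h
    have h1 : 0 < x ^ 2 + 1.46 * x + 1.5916 := by positivity
    have h2 : (x - 2.46) * (x ^ 2 + 1.46 * x + 1.5916) < 0 :=
      mul_neg_of_neg_of_pos (by linarith) h1
    norm_num at h2
    nlinarith
  · by_contra h
    push Not at h
    have h1 : 0 < x ^ 2 + 3 / 2 * x + 7 / 4 := by positivity
    have h2 : 0 < (x - 5 / 2) * (x ^ 2 + 3 / 2 * x + 7 / 4) := mul_pos (by linarith) h1
    nlinarith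

namespace NumericAux

theorem exists_root : ∃ x : ℝ, x ^ 3 = x ^ 2 + 2 * x + 4 ∧ 2.46 ≤ x ∧ x ≤ 5 / 2 := by
  have h1 : (2.46 : ℝ) ≤ 5 / 2 := by norm_num
  have h2 : ContinuousOn (fun x : ℝ => x ^ 3 - x ^ 2 - 2 * x - 4) (Set.Icc (2.46 : ℝ) (5 / 2)) :=
    Continuous.continuousOn (by fun_prop)
  have h3 := intermediate_value_Icc h1 h2
  have h4 : (0 : ℝ) ∈ Set.Icc ((fun x : ℝ => x ^ 3 - x ^ 2 - 2 * x - 4) 2.46)
      ((fun x : ℝ => x ^ 3 - x ^ 2 - 2 * x - 4) (5 / 2)) := by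
    constructor <;> norm_num
  obtain ⟨x, hx, hx0⟩ := h3 h4
  exact ⟨x, by simp only at hx0; linarith, hx.1, hx.2⟩

end NumericAux

theorem cov_some (n : ℕ) : ∃ L : ℝ, Cov n L := by
  obtain ⟨x, hx, hx1, hx2⟩ := NumericAux.exists_root
  obtain ⟨c, _, hc⟩ := cov_step x hx hx1 hx2 1
  induction n using Nat.strong_induction_on with
  | _ n ih =>
    cases n with
    | zero => exact cov_zero
    | succ n =>
      have h1 : ∀ i : ℕ, ∃ L : ℝ, i ≤ n → Cov i L := by
        intro i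
        by_cases hi : i ≤ n
        · obtain ⟨L, hL⟩ := ih i (by omega)
          exact ⟨L, fun _ => hL⟩
        · exact ⟨0, fun h => absurd h hi⟩
      choose L hL using h1
      exact ⟨_, hc n L fun i hi => hL i hi⟩

theorem cov_all (x : ℝ) (hx0 : 0 < x) (hx : x ^ 3 = x ^ 2 + 2 * x + 4) :
    ∃ C : ℝ, 0 < C ∧ ∀ n : ℕ, Cov n (C * x ^ n) := by
  obtain ⟨hx1, hx2⟩ := root_bounds x hx0 hx
  have hx1' : 1 ≤ x := by
    have : (1 : ℝ) ≤ 2.46 := by norm_num
    linarith
  obtain ⟨c, hc0, hc⟩ := cov_step x hx hx1 hx2 9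
  choose L hL using cov_some
  have hS : 0 ≤ ∑ i ∈ Finset.range 9, |L i| := Finset.sum_nonneg fun i _ => abs_nonneg _
  set C : ℝ := 1 + ∑ i ∈ Finset.range 9, |L i| + c with hC
  have hC0 : 0 < C := by linarith
  refine ⟨C, hC0, fun n => ?_⟩
  induction n using Nat.strong_induction_on with
  | _ n ih =>
    by_cases hn : n < 9
    · refine (hL n).mono ?_
      have h1 : |L n| ≤ ∑ i ∈ Finset.range 9, |L i| :=
        Finset.single_le_sum (f := fun i => |L i|) (fun i _ => abs_nonneg _) (Finset.mem_range.mpr hn)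
      have h2 : L n ≤ C := by
        have := le_abs_self (L n)
        linarith
      have h3 : C ≤ C * x ^ n := le_mul_of_one_le_right hC0.le (one_le_pow₀ hx1')
      linarith
    · obtain ⟨j, rfl⟩ : ∃ j, n = j + 9 := ⟨n - 9, by omega⟩
      refine (hc j (fun i => C * x ^ i) fun i hi => ih i (by omega)).mono ?_
      have hp : 0 < x ^ j := by positivity
      have hgeo : (∑ i ∈ Finset.range j, x ^ i) * (x - 1) = x ^ j - 1 := geom_sum_mul x j
      have hG0 : 0 ≤ ∑ i ∈ Finset.range j, x ^ i := Finset.sum_nonneg fun i _ => by positivity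
      have hG : (∑ i ∈ Finset.range j, x ^ i) * 1.46 ≤ x ^ j := by
        have h1 : (∑ i ∈ Finset.range j, x ^ i) * 1.46 ≤ (∑ i ∈ Finset.range j, x ^ i) * (x - 1) := by
          apply mul_le_mul_of_nonneg_left _ hG0
          norm_num at hx1 ⊢
          linarith
        linarith
      have h9 : (3299 : ℝ) ≤ x ^ 9 := by
        calc (3299 : ℝ) ≤ 2.46 ^ 9 := by norm_num
          _ ≤ x ^ 9 := pow_le_pow_left₀ (by norm_num) hx1 9
      rw [← Finset.mul_sum]
      set S : ℝ := ∑ i ∈ Finset.range j, x ^ i with hSdef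
      have hcC : c ≤ C := by linarith
      have h4 : S ≤ x ^ j * (1 / 1.46) := by
        rw [mul_one_div, le_div_iff₀ (by norm_num)]
        exact hG
      have h5 : 8 * ((2 : ℝ) ^ 9 - 1) * (C * S) ≤ 2800 * (C * x ^ j) := by
        have h6 : C * S ≤ C * (x ^ j * (1 / 1.46)) := mul_le_mul_of_nonneg_left h4 hC0.le
        have h7 : 8 * ((2 : ℝ) ^ 9 - 1) * (C * S) ≤ 8 * ((2 : ℝ) ^ 9 - 1) * (C * (x ^ j * (1 / 1.46))) :=
          mul_le_mul_of_nonneg_left h6 (by norm_num)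
        refine h7.trans (le_of_eq ?_)
        norm_num
        ring
      have h8 : c * x ^ j ≤ C * x ^ j := mul_le_mul_of_nonneg_right hcC hp.le
      have h10 : C * x ^ j * 3299 ≤ C * x ^ (j + 9) := by
        rw [pow_add, ← mul_assoc]
        exact mul_le_mul_of_nonneg_left h9 (by positivity)
      have h11 : 0 < C * x ^ j := by positivity
      linarith

end Pool.Agent.Lib.Pb99418U
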