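import Pool.Agent.Lib.Pb99418U.KFacts

/-!
# New stages from old ones

Let `(N, N', s)` be a stage.  Then `N'` is normalised by `G` (`comm` and `le`), the squares of the
elements of `N` are in `N'` and, more generally, `x, y ∈ N`, `x, y ∉ N'` implies `x y⁻¹ ∈ N'`
(by `idx`: `x s⁻¹, y s⁻¹ ∈ N'`, so `x y⁻¹ = (x s⁻¹)(y s⁻¹)⁻¹`).

* `mem_Dg`: the set `{pr p q : p, q ∈ N, p q⁻¹ ∈ N'}` is closed under products:
  `p p' (q q')⁻¹ = p (p' q'⁻¹) p⁻¹ · (p q⁻¹)`, and under inverses: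
  `p⁻¹ q = p⁻¹ (q p⁻¹) p`; hence it is equal to the closure `Dg N N'`.
* `stage_one`: `Dg N N' ≤ lift N ≤ lift K ≤ K`, `pr 1 s ∈ lift N`.  `comm`: let `g ∈ G` and
  `n = pr p q`, `p, q ∈ N`; by `G_dec` `g = pr f h` or `g = pr f h * gA` with `f, h ∈ G`.  In the
  first case `g n g⁻¹ n⁻¹ = pr (f p f⁻¹ p⁻¹) (h q h⁻¹ q⁻¹)` has both coordinates in `N'`.  In the
  second case it is `pr (f q f⁻¹ p⁻¹) (h p h⁻¹ q⁻¹)`, where
  `f q f⁻¹ p⁻¹ = (f q f⁻¹ q⁻¹)(q p⁻¹)`, `h p h⁻¹ q⁻¹ = (h p h⁻¹ p⁻¹)(p q⁻¹)`; if `q p⁻¹ ∈ N'` both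
  are in `N'`, otherwise both are in `N` and not in `N'`, and their quotient is in `N'`.
  `idx`: for `pr p q`: if `p q⁻¹ ∈ N'` it is in `Dg`, otherwise
  `pr p q * (pr 1 s)⁻¹ = pr p (q s⁻¹)` and `p (q s⁻¹)⁻¹ = p s q⁻¹ = p s p⁻¹ s⁻¹ · s (p q⁻¹)`,
  and `s (p q⁻¹) ∈ N'` because `s ∉ N'` or `s ∈ N'`, … (if `s ∈ N'` then `N = N'` by `idx`, and
  everything is in `N'`).
* `stage_two`: `lift N' ≤ Dg N N'`; `comm`: as above, in the second case both coordinates are in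
  `N'` since `q p⁻¹ ∈ N'`; `idx`: if `p ∈ N'` then `q ∈ N'`, otherwise `p s⁻¹ ∈ N'` and
  `q s⁻¹ = (q p⁻¹)(p s⁻¹) ∈ N'`.
-/

namespace Pool.Agent.Lib.Pb99418U

open Pool.Agent.Lib.Pb99418 Gen

theorem Stage.conj' {N N' : Subgroup P} {s : P} (h : Stage N N' s) {g n : P} (hg : g ∈ G)
    (hn : n ∈ N') : g * n * g⁻¹ ∈ N' := by
  have h1 := h.comm g hg n (h.le hn)
  have : g * n * g⁻¹ = (g * n * g⁻¹ * n⁻¹) * n := by group
  rw [this]; exact N'.mul_mem h1 hn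

theorem Stage.conj {N N' : Subgroup P} {s : P} (h : Stage N N' s) {g n : P} (hg : g ∈ G)
    (hn : n ∈ N) : g * n * g⁻¹ ∈ N := by
  have h1 := h.le (h.comm g hg n hn)
  have : g * n * g⁻¹ = (g * n * g⁻¹ * n⁻¹) * n := by group
  rw [this]; exact N.mul_mem h1 hn

theorem Stage.quot {N N' : Subgroup P} {s : P} (h : Stage N N' s) {x y : P} (hx : x ∈ N)
    (hy : y ∈ N) (hx' : x ∉ N') (hy' : y ∉ N') : x * y⁻¹ ∈ N' := by
  have h1 := (h.idx x hx).resolve_left hx'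
  have h2 := (h.idx y hy).resolve_left hy'
  have : x * y⁻¹ = (x * s⁻¹) * (y * s⁻¹)⁻¹ := by group
  rw [this]; exact N'.mul_mem h1 (N'.inv_mem h2)

namespace StageNewAux

theorem inG {N N' : Subgroup P} {s : P} (h : Stage N N' s) {x : P} (hx : x ∈ N) : x ∈ G :=
  K_le_G (h.leK hx)

theorem quot2 {N N' : Subgroup P} {s : P} (h : Stage N N' s) {x y : P} (hx : x ∈ N)
    (hy : y ∈ N) (hx' : x ∉ N') (hy' : y ∉ N') : x * y ∈ N' := by
  have := h.quot hx (N.inv_mem hy) hx' (fun hc => hy' (by simpa using N'.inv_mem hc))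
  simpa using this

end StageNewAux

open StageNewAux

theorem Stage.mem_Dg {N N' : Subgroup P} {s : P} (h : Stage N N' s) {x : P} :
    x ∈ Dg N N' ↔ ∃ p ∈ N, ∃ q ∈ N, p * q⁻¹ ∈ N' ∧ x = pr p q := by
  constructor
  · intro hx
    induction hx using Subgroup.closure_induction with
    | mem x hx => exact hx
    | one => exact ⟨1, N.one_mem, 1, N.one_mem, by simpa using N'.one_mem, by simp⟩
    | mul x y _ _ hx hy =>
      obtain ⟨p, hp, q, hq, hpq, rfl⟩ := hx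
      obtain ⟨p', hp', q', hq', hpq', rfl⟩ := hy
      refine ⟨p * p', N.mul_mem hp hp', q * q', N.mul_mem hq hq', ?_, by simp⟩
      have : p * p' * (q * q')⁻¹ = (p * (p' * q'⁻¹) * p⁻¹) * (p * q⁻¹) := by group
      rw [this]
      exact N'.mul_mem (h.conj' (inG h hp) hpq') hpq
    | inv x _ hx =>
      obtain ⟨p, hp, q, hq, hpq, rfl⟩ := hx
      refine ⟨p⁻¹, N.inv_mem hp, q⁻¹, N.inv_mem hq, ?_, by simp⟩
      have : p⁻¹ * q⁻¹⁻¹ = p⁻¹ * (p * q⁻¹)⁻¹ * p⁻¹⁻¹ := by group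
      rw [this]
      exact h.conj' (G.inv_mem (inG h hp)) (N'.inv_mem hpq)
  · rintro ⟨p, hp, q, hq, hpq, rfl⟩
    exact Subgroup.subset_closure ⟨p, hp, q, hq, hpq, rfl⟩

namespace StageNewAux

theorem comm_cases {N N' : Subgroup P} {s : P} (h : Stage N N' s) {g p q : P} (hg : g ∈ G)
    (hp : p ∈ N) (hq : q ∈ N) :
    (∃ u ∈ N', ∃ v ∈ N', g * pr p q * g⁻¹ * (pr p q)⁻¹ = pr u v) ∨
    (∃ u ∈ N', ∃ v ∈ N', g * pr p q * g⁻¹ * (pr p q)⁻¹ = pr (u * (q * p⁻¹)) (v * (p * q⁻¹))) := by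
  obtain ⟨f, hf, e, he, hh⟩ := G_dec hg
  rcases hh with rfl | rfl
  · left
    refine ⟨f * p * f⁻¹ * p⁻¹, h.comm f hf p hp, e * q * e⁻¹ * q⁻¹, h.comm e he q hq, ?_⟩
    simp
  · right
    refine ⟨f * q * f⁻¹ * q⁻¹, h.comm f hf q hq, e * p * e⁻¹ * p⁻¹, h.comm e he p hp, ?_⟩
    have : pr f e * gA * pr p q * (pr f e * gA)⁻¹ = pr (f * q * f⁻¹) (e * p * e⁻¹) := by
      rw [mul_inv_rev, gen_inv, pr_inv]
      calc pr f e * gA * pr p q * (gA * pr f⁻¹ e⁻¹)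
          = pr f e * (gA * pr p q * gA) * pr f⁻¹ e⁻¹ := by group
        _ = _ := by rw [gA_pr_gA, pr_mul, pr_mul]
    rw [this, pr_inv, pr_mul]
    congr 1 <;> group

theorem Dg_le {N N' : Subgroup P} {s : P} (h : Stage N N' s) : Dg N N' ≤ lift N := by
  intro x hx
  obtain ⟨p, hp, q, hq, _, rfl⟩ := h.mem_Dg.1 hx
  exact ⟨p, hp, q, hq, rfl⟩

end StageNewAux

theorem Stage.one {N N' : Subgroup P} {s : P} (h : Stage N N' s) :
    Stage (lift N) (Dg N N') (pr 1 s) where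
  le := Dg_le h
  leK := (lift_mono h.leK).trans lift_K_le
  mem := ⟨1, N.one_mem, s, h.mem, rfl⟩
  comm := by
    rintro g hg n ⟨p, hp, q, hq, rfl⟩
    rcases comm_cases h hg hp hq with ⟨u, hu, v, hv, e⟩ | ⟨u, hu, v, hv, e⟩
    · rw [e]
      exact h.mem_Dg.2 ⟨u, h.le hu, v, h.le hv, N'.mul_mem hu (N'.inv_mem hv), rfl⟩
    · rw [e]
      refine h.mem_Dg.2 ⟨_, N.mul_mem (h.le hu) (N.mul_mem hq (N.inv_mem hp)), _,
        N.mul_mem (h.le hv) (N.mul_mem hp (N.inv_mem hq)), ?_, rfl⟩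
      have e2 : u * (q * p⁻¹) * (v * (p * q⁻¹))⁻¹ = u * ((q * p⁻¹) * (q * p⁻¹) ) * v⁻¹ := by
        group
      rw [e2]
      refine N'.mul_mem (N'.mul_mem hu ?_) (N'.inv_mem hv)
      have hqp : q * p⁻¹ ∈ N := N.mul_mem hq (N.inv_mem hp)
      by_cases hc : q * p⁻¹ ∈ N'
      · exact N'.mul_mem hc hc
      · exact quot2 h hqp hqp hc hc
  idx := by
    rintro n ⟨p, hp, q, hq, rfl⟩
    by_cases hc : p * q⁻¹ ∈ N'
    · exact Or.inl (h.mem_Dg.2 ⟨p, hp, q, hq, hc, rfl⟩)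
    · right
      rw [pr_inv, pr_mul, inv_one, mul_one]
      refine h.mem_Dg.2 ⟨p, hp, q * s⁻¹, N.mul_mem hq (N.inv_mem h.mem), ?_, rfl⟩
      have hs : s ∉ N' := by
        intro hs
        rcases h.idx (p * q⁻¹) (N.mul_mem hp (N.inv_mem hq)) with h1 | h1
        · exact hc h1
        · exact hc (by have := N'.mul_mem h1 hs; simpa using this)
      have e : p * (q * s⁻¹)⁻¹ = (p * s * p⁻¹ * s⁻¹) * (s * (p * q⁻¹)) := by group
      rw [e]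
      exact N'.mul_mem (h.comm p (inG h hp) s h.mem)
        (quot2 h h.mem (N.mul_mem hp (N.inv_mem hq)) hs hc)

theorem Stage.two {N N' : Subgroup P} {s : P} (h : Stage N N' s) :
    Stage (Dg N N') (lift N') (pr s s) where
  le := by
    rintro x ⟨p, hp, q, hq, rfl⟩
    exact h.mem_Dg.2 ⟨p, h.le hp, q, h.le hq, N'.mul_mem hp (N'.inv_mem hq), rfl⟩
  leK := (Dg_le h).trans ((lift_mono h.leK).trans lift_K_le)
  mem := h.mem_Dg.2 ⟨s, h.mem, s, h.mem, by simpa using N'.one_mem, rfl⟩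
  comm := by
    intro g hg n hn
    obtain ⟨p, hp, q, hq, hpq, rfl⟩ := h.mem_Dg.1 hn
    rcases comm_cases h hg hp hq with ⟨u, hu, v, hv, e⟩ | ⟨u, hu, v, hv, e⟩
    · rw [e]; exact ⟨u, hu, v, hv, rfl⟩
    · rw [e]
      have h2 : q * p⁻¹ ∈ N' := by
        have := N'.inv_mem hpq
        simpa using this
      exact ⟨_, N'.mul_mem hu h2, _, N'.mul_mem hv hpq, rfl⟩
  idx := by
    intro n hn
    obtain ⟨p, hp, q, hq, hpq, rfl⟩ := h.mem_Dg.1 hn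
    have h2 : q * p⁻¹ ∈ N' := by
      have := N'.inv_mem hpq
      simpa using this
    rcases h.idx p hp with h1 | h1
    · left
      refine ⟨p, h1, q, ?_, rfl⟩
      have := N'.mul_mem h2 h1
      simpa using this
    · right
      rw [pr_inv, pr_mul]
      refine ⟨_, h1, _, ?_, rfl⟩
      have : q * s⁻¹ = (q * p⁻¹) * (p * s⁻¹) := by group
      rw [this]; exact N'.mul_mem h2 h1

end Pool.Agent.Lib.Pb99418U
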